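import Pool.Agent.TH936.CM.Num

/-!
# The Galois action on sums of character values with coefficients in a finite dimensional rational
space of complex numbers
-/

set_option autoImplicit false

open Complex

namespace Pool.Agent.Y727.KS

/-- **Galois invariance.**  Let `V` be a finite dimensional `ℚ`-subspace of `ℂ`.  For exponents `k`
in the class of `1` modulo a suitable `M` the vanishing of `∑ χ(u) w(u)`, `w(u) ∈ V`, is invariant
under `χ ↦ χ ^ k`. -/
theorem galois_span (V : Submodule ℚ ℂ) (hV : V.FG) : ∃ M : ℕ, 0 < M ∧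
    ∀ (q : ℕ) [NeZero q] (χ : DirichletCharacter ℂ q) (k : ℕ), Nat.Coprime k (orderOf χ) →
      k % M = 1 % M → ∀ w : (ZMod q)ˣ → ℂ, (∀ u, w u ∈ V) →
      ∑ u : (ZMod q)ˣ, χ (u : ZMod q) * w u = 0 →
      ∑ u : (ZMod q)ˣ, (χ ^ k) (u : ZMod q) * w u = 0 := by
  classical
  obtain ⟨r, ω, hω⟩ := Submodule.fg_iff_exists_fin_generating_family.1 hV
  set A : IntermediateField ℚ ℂ := algebraicClosure ℚ ℂ with hA
  let Λ : (Fin r → A) →ₗ[A] ℂ :=
    { toFun := fun x => ∑ i, ((x i : A) : ℂ) * ω i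
      map_add' := fun x y => by
        simp only [Pi.add_apply, IntermediateField.coe_add, add_mul, Finset.sum_add_distrib]
      map_smul' := fun c x => by
        simp only [Pi.smul_apply, smul_eq_mul, RingHom.id_apply, IntermediateField.coe_mul]
        rw [Algebra.smul_def, Finset.mul_sum]
        refine Finset.sum_congr rfl fun i _ => ?_
        rw [mul_assoc]
        rfl }
  have hWfg : (LinearMap.ker Λ).FG := IsNoetherian.noetherian _
  obtain ⟨s, b, hb⟩ := Submodule.fg_iff_exists_fin_generating_family.1 hWfg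
  set S : Finset ℂ := Finset.univ.image (fun p : Fin s × Fin r => ((b p.1 p.2 : A) : ℂ)) with hS
  have hSalg : ∀ x ∈ S, IsAlgebraic ℚ x := by
    intro x hx
    rw [hS, Finset.mem_image] at hx
    obtain ⟨p, -, rfl⟩ := hx
    exact mem_algebraicClosure_iff.1 (b p.1 p.2).2
  obtain ⟨M, hM, hM'⟩ := Pool.Agent.TH936.CM.exists_aut_fix S hSalg
  refine ⟨M, hM, fun q _ χ k hk hkM w hw h0 => ?_⟩
  obtain ⟨σ, hσS, hσμ⟩ := hM' (orderOf χ) k (orderOf_pos χ) hk hkM
  -- rational coordinates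
  have hx : ∀ u, ∃ x : Fin r → ℚ, ∑ i, x i • ω i = w u := by
    intro u
    have h1 := hw u
    rw [← hω] at h1
    exact (Submodule.mem_span_range_iff_exists_fun ℚ).1 h1
  choose x hx using hx
  -- values of `χ`
  have hχ1 : ∀ u : (ZMod q)ˣ, χ (u : ZMod q) ^ orderOf χ = 1 := by
    intro u
    have h2 : (χ ^ orderOf χ) (u : ZMod q) = 1 := by
      rw [pow_orderOf_eq_one, MulChar.one_apply_coe]
    rwa [MulChar.pow_apply_coe] at h2
  have hχA : ∀ u : (ZMod q)ˣ, χ (u : ZMod q) ∈ A := by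
    intro u
    rw [hA, mem_algebraicClosure_iff]
    refine IsIntegral.isAlgebraic (IsIntegral.of_pow (orderOf_pos χ) ?_)
    rw [hχ1]
    exact isIntegral_one
  have hσχ : ∀ u : (ZMod q)ˣ, σ (χ (u : ZMod q)) = (χ ^ k) (u : ZMod q) := by
    intro u
    rw [hσμ _ (hχ1 u), MulChar.pow_apply_coe]
  let X : Fin r → A := fun i => ∑ u : (ZMod q)ˣ, (⟨χ (u : ZMod q), hχA u⟩ : A) * algebraMap ℚ A (x u i)
  have hXc : ∀ i, ((X i : A) : ℂ) = ∑ u : (ZMod q)ˣ, χ (u : ZMod q) * (x u i : ℂ) := by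
    intro i
    show ((∑ u : (ZMod q)ˣ, (⟨χ (u : ZMod q), hχA u⟩ : A) * algebraMap ℚ A (x u i) : A) : ℂ) = _
    rw [← IntermediateField.algebraMap_apply, map_sum]
    refine Finset.sum_congr rfl fun u _ => ?_
    rw [map_mul]
    simp
  have hsum : ∀ c : (ZMod q)ˣ → ℂ, ∑ u, c u * w u = ∑ i, (∑ u, c u * (x u i : ℂ)) * ω i := by
    intro c
    have h1 : ∀ u, c u * w u = ∑ i, c u * (x u i : ℂ) * ω i := by
      intro u
      rw [← hx u, Finset.mul_sum]
      refine Finset.sum_congr rfl fun i _ => ?_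
      rw [Algebra.smul_def]
      simp only [eq_ratCast]
      ring
    simp only [h1]
    rw [Finset.sum_comm]
    refine Finset.sum_congr rfl fun i _ => ?_
    rw [Finset.sum_mul]
  have hXker : X ∈ LinearMap.ker Λ := by
    rw [LinearMap.mem_ker]
    show ∑ i, ((X i : A) : ℂ) * ω i = 0
    rw [← h0, hsum]
    refine Finset.sum_congr rfl fun i _ => ?_
    rw [hXc]
  rw [← hb] at hXker
  obtain ⟨l, hl⟩ := (Submodule.mem_span_range_iff_exists_fun A).1 hXker
  have hXi : ∀ i, ((X i : A) : ℂ) = ∑ j, ((l j : A) : ℂ) * ((b j i : A) : ℂ) := by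
    intro i
    rw [← hl, Finset.sum_apply, ← IntermediateField.algebraMap_apply, map_sum]
    refine Finset.sum_congr rfl fun j _ => ?_
    rw [Pi.smul_apply, smul_eq_mul, map_mul]
    rfl
  have hσX : ∀ i, σ ((X i : A) : ℂ) = ∑ u : (ZMod q)ˣ, (χ ^ k) (u : ZMod q) * (x u i : ℂ) := by
    intro i
    rw [hXc, map_sum]
    refine Finset.sum_congr rfl fun u _ => ?_
    rw [map_mul, hσχ, map_ratCast]
  have hσX2 : ∀ i, σ ((X i : A) : ℂ) = ∑ j, σ ((l j : A) : ℂ) * ((b j i : A) : ℂ) := by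
    intro i
    rw [hXi, map_sum]
    refine Finset.sum_congr rfl fun j _ => ?_
    rw [map_mul, hσS _ (Finset.mem_image.2 ⟨(j, i), Finset.mem_univ _, rfl⟩)]
  rw [hsum]
  have h2 : ∀ i, (∑ u : (ZMod q)ˣ, (χ ^ k) (u : ZMod q) * (x u i : ℂ)) * ω i =
      ∑ j, σ ((l j : A) : ℂ) * (((b j i : A) : ℂ) * ω i) := by
    intro i
    rw [← hσX, hσX2, Finset.sum_mul]
    refine Finset.sum_congr rfl fun j _ => ?_
    ring
  simp only [h2]
  rw [Finset.sum_comm]
  refine Finset.sum_eq_zero fun j _ => ?_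
  rw [← Finset.mul_sum]
  have h3 : b j ∈ LinearMap.ker Λ := by
    rw [← hb]
    exact Submodule.subset_span ⟨j, rfl⟩
  rw [LinearMap.mem_ker] at h3
  have h4 : ∑ i, ((b j i : A) : ℂ) * ω i = 0 := h3
  rw [h4, mul_zero]

end Pool.Agent.Y727.KS
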