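import Pool.Agent.Y727.KS.Frm
import Pool.Agent.Y727.KS.Gal
import Pool.Agent.W440.TW.Twist
import Pool.Agent.W192.CY.Stk

/-!
# The central value of the twists by the periods
-/

set_option autoImplicit false

open Complex Filter Topology Set Polynomial UpperHalfPlane MatrixGroups CongruenceSubgroup ZMod

namespace Pool.Agent.Y727.KS

open Pool.Agent.W440.TW Pool.Agent.W108.TW
open Pool.Agent.W192.CY (Vk)

/-! ## Gauss sums -/

lemma Fs_rat (a : ℕ → ℂ) (i : ℕ) {q : ℕ} [NeZero q] (u : ℤ) (y : ℝ) :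
    Fs a i ((u : ℂ) / q + (y : ℂ) * Complex.I) =
      ∑' n : ℕ, a n / (n : ℂ) ^ i * (stdAddChar ((u : ZMod q) * (n : ZMod q)) *
        (Real.exp (-(2 * Real.pi * n * y)) : ℂ)) := by
  have hq : (q : ℂ) ≠ 0 := Nat.cast_ne_zero.2 (NeZero.ne q)
  unfold Fs
  refine tsum_congr fun n => ?_
  congr 1
  have h3 : ((u : ZMod q) * (n : ZMod q)) = ((u * n : ℤ) : ZMod q) := by push_cast; rfl
  rw [h3, stdAddChar_coe, Complex.ofReal_exp, ← Complex.exp_add]
  congr 1
  push_cast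
  have e : 2 * (Real.pi : ℂ) * Complex.I * n * (u / q + y * Complex.I) =
      2 * Real.pi * Complex.I * (u * n) / q + -(2 * Real.pi * n * y) +
        2 * Real.pi * n * y * (Complex.I ^ 2 + 1) := by
    field_simp
    ring
  rw [e, Complex.I_sq]
  ring

lemma Fs_rat_summable {a : ℕ → ℂ} {C κ : ℝ} (h : Gr a C κ) (i : ℕ) {q : ℕ} [NeZero q]
    (x : ZMod q) {y : ℝ} (hy : 0 < y) :
    Summable (fun n : ℕ => a n / (n : ℂ) ^ i * (stdAddChar (x * (n : ZMod q)) *
        (Real.exp (-(2 * Real.pi * n * y)) : ℂ))) := by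
  have h1 := summable_term (b := fun n : ℕ => a n / (n : ℂ) ^ i *
    stdAddChar (x * (n : ZMod q))) (m := κ) (C := C) (by rw [(h.div i).zero, zero_mul])
    (fun n hn => by
      rw [norm_mul, AddChar.norm_apply, mul_one]
      exact (h.div i).bd n hn) (c := 2 * Real.pi) (by positivity) hy
  refine h1.congr (fun n => ?_)
  rw [mul_assoc]
  congr 3
  ring_nf

/-- the Gauss sum trick -/
lemma Fs_gauss {a : ℕ → ℂ} {C κ : ℝ} (h : Gr a C κ) (i : ℕ) {q : ℕ} [NeZero q]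
    (χ : DirichletCharacter ℂ q) (hχ : χ.IsPrimitive) {y : ℝ} (hy : 0 < y) :
    ∑ u : (ZMod q)ˣ, χ (u : ZMod q) *
        Fs a i (((((u : ZMod q).val : ℤ)) : ℂ) / q + (y : ℂ) * Complex.I) =
      gaussSum χ (stdAddChar (N := q)) * ∑' n : ℕ, χ⁻¹ (n : ZMod q) *
        a n / (n : ℂ) ^ i * (Real.exp (-(2 * Real.pi * n * y)) : ℂ) := by
  simp only [Fs_rat]
  rw [← tsum_mul_left]
  have h5 : ∀ u : (ZMod q)ˣ, (((((u : ZMod q).val : ℤ)) : ZMod q)) = (u : ZMod q) := by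
    intro u
    rw [Int.cast_natCast, ZMod.natCast_zmod_val]
  simp only [h5]
  have h6 : ∀ u : (ZMod q)ˣ, χ (u : ZMod q) * ∑' n : ℕ, a n / (n : ℂ) ^ i *
      (stdAddChar ((u : ZMod q) * (n : ZMod q)) * (Real.exp (-(2 * Real.pi * n * y)) : ℂ)) =
      ∑' n : ℕ, χ (u : ZMod q) * (a n / (n : ℂ) ^ i *
      (stdAddChar ((u : ZMod q) * (n : ZMod q)) * (Real.exp (-(2 * Real.pi * n * y)) : ℂ))) :=
    fun u => tsum_mul_left.symm
  simp only [h6]
  rw [← Summable.tsum_finsetSum (s := Finset.univ) (f := fun (u : (ZMod q)ˣ) (n : ℕ) =>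
      χ (u : ZMod q) * (a n / (n : ℂ) ^ i *
      (stdAddChar ((u : ZMod q) * (n : ZMod q)) * (Real.exp (-(2 * Real.pi * n * y)) : ℂ))))
      (fun u _ => (Fs_rat_summable h i (u : ZMod q) hy).mul_left _)]
  refine tsum_congr fun n => ?_
  have h2 := gaussSum_mulShift_of_isPrimitive (stdAddChar (N := q)) hχ (n : ZMod q)
  have h3 : gaussSum χ (stdAddChar.mulShift (n : ZMod q)) =
      ∑ u : (ZMod q)ˣ, χ (u : ZMod q) * stdAddChar ((n : ZMod q) * (u : ZMod q)) := by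
    unfold gaussSum
    simp only [AddChar.mulShift_apply]
    symm
    apply Finset.sum_of_injOn (fun u : (ZMod q)ˣ => (u : ZMod q))
    · intro a _ b _ hab
      exact Units.ext hab
    · intro a _
      simp
    · intro a _ ha
      rw [MulChar.map_nonunit _ (fun hu => ha ⟨hu.unit, by simp, by simp⟩), zero_mul]
    · intro a _
      rfl
  rw [h3] at h2
  have h4 : gaussSum χ (stdAddChar (N := q)) * (χ⁻¹ (n : ZMod q) *
      a n / (n : ℂ) ^ i * (Real.exp (-(2 * Real.pi * n * y)) : ℂ)) =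
      (χ⁻¹ (n : ZMod q) * gaussSum χ (stdAddChar (N := q))) *
      (a n / (n : ℂ) ^ i * (Real.exp (-(2 * Real.pi * n * y)) : ℂ)) := by ring
  rw [h4, ← h2, Finset.sum_mul]
  apply Finset.sum_congr rfl
  intro u _
  rw [mul_comm (n : ZMod q)]
  ring

/-! ## the weight function -/

lemma Vk_split {b : ℕ → ℂ} {C κ : ℝ} (h : Gr b C κ) (m : ℕ) {X : ℝ} (hX : 0 < X) :
    ∑' n : ℕ, b n / (n : ℂ) ^ m * (Vk m (n / X) : ℂ) =
      ∑ j ∈ Finset.range m, ((1 / X) ^ j / (j.factorial : ℝ) : ℝ) *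
        ∑' n : ℕ, b n / (n : ℂ) ^ (m - j) * (Real.exp (-(n / X)) : ℂ) := by
  have hs : ∀ j : ℕ, Summable (fun n : ℕ => b n / (n : ℂ) ^ (m - j) * (Real.exp (-(n / X)) : ℂ)) := by
    intro j
    have h1 := summable_term (h.div (m - j)).zero (h.div (m - j)).bd (c := 1 / X) (by positivity)
      (t := 1) one_pos
    refine h1.congr fun n => ?_
    congr 3
    ring
  have h2 : ∀ n : ℕ, b n / (n : ℂ) ^ m * (Vk m (n / X) : ℂ) =
      ∑ j ∈ Finset.range m, ((1 / X) ^ j / (j.factorial : ℝ) : ℝ) *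
        (b n / (n : ℂ) ^ (m - j) * (Real.exp (-(n / X)) : ℂ)) := by
    intro n
    unfold Vk
    push_cast
    rw [Finset.mul_sum, Finset.mul_sum]
    refine Finset.sum_congr rfl fun j hj => ?_
    have hj' := Finset.mem_range.1 hj
    rcases Nat.eq_zero_or_pos n with rfl | hn
    · rw [h.zero]; simp
    · have hn0 : (n : ℂ) ≠ 0 := by exact_mod_cast hn.ne'
      have hX0 : (X : ℂ) ≠ 0 := by exact_mod_cast hX.ne'
      have e : (n : ℂ) ^ m = (n : ℂ) ^ (m - j) * (n : ℂ) ^ j := by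
        rw [← pow_add]; congr 1; omega
      rw [e]
      field_simp
      rw [div_pow, one_div, inv_pow]
      ring
  simp only [h2]
  rw [Summable.tsum_finsetSum (fun j _ => (hs j).mul_left _)]
  refine Finset.sum_congr rfl fun j _ => ?_
  rw [tsum_mul_left]

/-! ## the limits at the cusps -/

variable {N : ℕ} [NeZero N] {m : ℕ}

/-- the constant -/
noncomputable def kap (r : ℕ) : ℂ := (-1) ^ r * (r.factorial : ℂ) / (2 * Real.pi * Complex.I) ^ (r + 1)

lemma kap_ne (r : ℕ) : kap r ≠ 0 := by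
  unfold kap
  refine div_ne_zero (mul_ne_zero (pow_ne_zero _ (by norm_num)) ?_) (pow_ne_zero _ two_pi_I_ne)
  exact_mod_cast r.factorial_ne_zero

lemma Fs_expand (a : ℕ → ℂ) {D r : ℕ} (hr : r < D) (z : ℂ) : kap r * Fs a (r + 1) z =
    ∑ j ∈ Finset.range (r + 1), ((r.choose j : ℂ) * (-z) ^ (r - j)) * EQ a D z (X ^ j) := by
  have h1 := Ep_self a hr z
  have h2 : (X - C z : ℂ[X]) ^ r = ∑ j ∈ Finset.range (r + 1),
      C ((r.choose j : ℂ) * (-z) ^ (r - j)) * X ^ j := by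
    rw [sub_eq_add_neg, ← C_neg, add_pow]
    refine Finset.sum_congr rfl fun j _ => ?_
    rw [C_mul, C_pow, ← C_eq_natCast]
    ring
  have h3 : kap r * Fs a (r + 1) z = Ep a D ((X - C z) ^ r) z := by
    rw [h1]
    unfold kap
    ring
  rw [h3, h2]
  have h4 := map_sum (El a D z) (fun j => C ((r.choose j : ℂ) * (-z) ^ (r - j)) * X ^ j)
    (Finset.range (r + 1))
  refine h4.trans (Finset.sum_congr rfl fun j _ => ?_)
  show Ep a D (C ((r.choose j : ℂ) * (-z) ^ (r - j)) * X ^ j) z = _ * Ep a D (mp (X ^ j)) z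
  rw [Ep_smul]
  congr 2
  unfold mp
  rw [Polynomial.map_pow, Polynomial.map_X]

theorem Fs_cusp (hm : 1 ≤ m) (f : CuspForm (Gamma0 N : Subgroup (GL (Fin 2) ℝ)) (2 * m : ℤ))
    {ε : ℝ} {V : Submodule ℚ ℂ}
    (hV1 : ∀ γ : SL(2, ℤ), γ ∈ Gamma0 N →
        Pv (co f) (2 * m - 1) V (γ 0 0) (γ 0 1) (γ 1 0) (γ 1 1) 1)
    (hV2 : Pv (co f) (2 * m - 1) V 0 (-1) N 0 ((ε : ℂ) * (-1) ^ m * N / (N : ℂ) ^ m))
    {q : ℕ} [NeZero q] (u v d : ℤ) (hd : q * d - N * u * v = 1) {r : ℕ} (hr : r < m) :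
    ∃ w ∈ V, Tendsto (fun T : ℝ => kap r * Fs (co f) (r + 1)
      ((u : ℂ) / q + ((1 / (N * (q : ℝ) ^ 2 * T) : ℝ) : ℂ) * Complex.I)) atTop (𝓝 w) := by
  have hN : (0 : ℝ) < N := Nat.cast_pos.2 (Nat.pos_of_ne_zero (NeZero.ne N))
  have hq0 : (0 : ℝ) < q := Nat.cast_pos.2 (Nat.pos_of_ne_zero (NeZero.ne q))
  have hex : ∀ j : ℕ, ∃ w : ℂ, j < r + 1 → w ∈ V ∧ Tendsto (fun T : ℝ => EQ (co f) (2 * m - 1)
      ((u : ℂ) / q + ((1 / (N * (q : ℝ) ^ 2 * T) : ℝ) : ℂ) * Complex.I) (X ^ j)) atTop (𝓝 w) := by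
    intro j
    by_cases hj : j < r + 1
    · obtain ⟨w, hw, hw'⟩ := cusp_lim hm f hV1 hV2 (q := q) u v d hd (X ^ j)
        (lt_of_le_of_lt (natDegree_X_pow_le _) (by omega))
      exact ⟨w, fun _ => ⟨hw, hw'⟩⟩
    · exact ⟨0, fun h => absurd h hj⟩
  choose w hw using hex
  refine ⟨∑ j ∈ Finset.range (r + 1), ((r.choose j : ℂ) * (-((u : ℂ) / q)) ^ (r - j)) * w j, ?_, ?_⟩
  · refine Submodule.sum_mem _ fun j hj => ?_
    have h1 := (hw j (Finset.mem_range.1 hj)).1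
    have h2 : ((r.choose j : ℂ) * (-((u : ℂ) / q)) ^ (r - j)) * w j =
        ((r.choose j : ℚ) * (-((u : ℚ) / q)) ^ (r - j)) • w j := by
      rw [Algebra.smul_def]
      congr 1
      simp
    rw [h2]
    exact V.smul_mem _ h1
  · have hz : Tendsto (fun T : ℝ => (u : ℂ) / q + ((1 / (N * (q : ℝ) ^ 2 * T) : ℝ) : ℂ) * Complex.I)
        atTop (𝓝 ((u : ℂ) / q)) := by
      have h1 : Tendsto (fun T : ℝ => 1 / (N * (q : ℝ) ^ 2 * T)) atTop (𝓝 0) := by
        have h2 : Tendsto (fun T : ℝ => N * (q : ℝ) ^ 2 * T) atTop atTop :=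
          Tendsto.const_mul_atTop (by positivity) tendsto_id
        simp only [one_div]
        exact tendsto_inv_atTop_zero.comp h2
      have h3 : Tendsto (fun T : ℝ => ((1 / (N * (q : ℝ) ^ 2 * T) : ℝ) : ℂ)) atTop (𝓝 ((0 : ℝ) : ℂ)) :=
        (Complex.continuous_ofReal.tendsto 0).comp h1
      have h4 := (h3.mul_const Complex.I).const_add ((u : ℂ) / q)
      rwa [Complex.ofReal_zero, zero_mul, add_zero] at h4
    have h5 : ∀ T : ℝ, kap r * Fs (co f) (r + 1)
        ((u : ℂ) / q + ((1 / (N * (q : ℝ) ^ 2 * T) : ℝ) : ℂ) * Complex.I) =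
        ∑ j ∈ Finset.range (r + 1), ((r.choose j : ℂ) *
          (-((u : ℂ) / q + ((1 / (N * (q : ℝ) ^ 2 * T) : ℝ) : ℂ) * Complex.I)) ^ (r - j)) *
          EQ (co f) (2 * m - 1)
          ((u : ℂ) / q + ((1 / (N * (q : ℝ) ^ 2 * T) : ℝ) : ℂ) * Complex.I) (X ^ j) :=
      fun T => Fs_expand (co f) (by omega) _
    simp only [h5]
    refine tendsto_finsetSum _ fun j hj => ?_
    exact ((hz.neg.pow (r - j)).const_mul _).mul (hw j (Finset.mem_range.1 hj)).2

/-- **The central value of the twist** in terms of the periods. -/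
theorem center (hm : 1 ≤ m) (f : CuspForm (Gamma0 N : Subgroup (GL (Fin 2) ℝ)) (2 * m : ℤ))
    {ε : ℝ} {V : Submodule ℚ ℂ}
    (hV1 : ∀ γ : SL(2, ℤ), γ ∈ Gamma0 N →
        Pv (co f) (2 * m - 1) V (γ 0 0) (γ 0 1) (γ 1 0) (γ 1 1) 1)
    (hV2 : Pv (co f) (2 * m - 1) V 0 (-1) N 0 ((ε : ℂ) * (-1) ^ m * N / (N : ℂ) ^ m))
    (q : ℕ) [NeZero q] (hco : Nat.Coprime q N) :
    ∃ w : (ZMod q)ˣ → ℂ, (∀ u, w u ∈ V) ∧
      ∀ (χ : DirichletCharacter ℂ q), χ.IsPrimitive → ∀ F0 W : ℂ,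
        (∀ X Y : ℝ, 0 < X → 0 < Y → X * Y = N * (q : ℝ) ^ 2 / (4 * Real.pi ^ 2) →
          F0 = ∑' n : ℕ, χ⁻¹ (n : ZMod q) * co f n / (n : ℂ) ^ m * (Vk m (n / X) : ℂ) +
            W * ∑' n : ℕ, (starRingEnd ℂ) (χ⁻¹ (n : ZMod q) * co f n) / (n : ℂ) ^ m *
              (Vk m (n / Y) : ℂ)) →
        kap (m - 1) * (gaussSum χ (stdAddChar (N := q)) * F0) =
          ∑ u : (ZMod q)ˣ, χ (u : ZMod q) * w u := by
  classical
  have hq0 : (0 : ℝ) < q := Nat.cast_pos.2 (Nat.pos_of_ne_zero (NeZero.ne q))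
  have hN0 : (0 : ℝ) < N := Nat.cast_pos.2 (Nat.pos_of_ne_zero (NeZero.ne N))
  have hpi := Real.pi_pos
  obtain ⟨C, hC0, hC⟩ := gr hm f
  -- the matrices
  have hex : ∀ u : (ZMod q)ˣ, ∃ v d : ℤ, q * d - N * (((u : ZMod q).val : ℤ)) * v = 1 := by
    intro u
    have h1 : Nat.Coprime (u : ZMod q).val q := ZMod.val_coe_unit_coprime u
    have h2 : Nat.Coprime q (N * (u : ZMod q).val) := Nat.Coprime.mul_right hco h1.symm
    have h3 : IsCoprime (q : ℤ) ((N * (u : ZMod q).val : ℕ) : ℤ) := by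
      exact_mod_cast Nat.isCoprime_iff_coprime.2 h2
    obtain ⟨a, b, hab⟩ := h3
    refine ⟨-b, a, ?_⟩
    push_cast at hab
    linarith
  choose v d hvd using hex
  have hex2 : ∀ (r : ℕ) (u : (ZMod q)ˣ), ∃ w : ℂ, r < m → w ∈ V ∧
      Tendsto (fun T : ℝ => kap r * Fs (co f) (r + 1)
      (((((u : ZMod q).val : ℤ) : ℤ) : ℂ) / q + ((1 / (N * (q : ℝ) ^ 2 * T) : ℝ) : ℂ) * Complex.I))
      atTop (𝓝 w) := by
    intro r u
    by_cases hr : r < m
    · obtain ⟨w, hw, hw'⟩ := Fs_cusp hm f hV1 hV2 (q := q) _ (v u) (d u) (hvd u) hr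
      exact ⟨w, fun _ => ⟨hw, hw'⟩⟩
    · exact ⟨0, fun h => absurd h hr⟩
  choose w hw using hex2
  refine ⟨w (m - 1), fun u => (hw (m - 1) u (by omega)).1, fun χ hχ F0 W hF => ?_⟩
  set g : ℂ := gaussSum χ (stdAddChar (N := q)) with hg
  set b : ℕ → ℂ := fun n => χ⁻¹ (n : ZMod q) * co f n with hb
  have hbG : Gr b C m := by
    refine ⟨by rw [hb]; simp [hC.zero], fun n hn => ?_⟩
    rw [hb]
    simp only [norm_mul]
    calc ‖χ⁻¹ (n : ZMod q)‖ * ‖co f n‖ ≤ 1 * ‖co f n‖ := by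
          gcongr
          exact DirichletCharacter.norm_le_one _ _
      _ = ‖co f n‖ := one_mul _
      _ ≤ _ := hC.bd n hn
  have hbGc : Gr (fun n => (starRingEnd ℂ) (b n)) C m := by
    refine ⟨by rw [hbG.zero, map_zero], fun n hn => ?_⟩
    rw [RCLike.norm_conj]
    exact hbG.bd n hn
  -- the twisted sums
  set A : ℕ → ℝ → ℂ := fun i T => ∑' n : ℕ, b n / (n : ℂ) ^ i *
    (Real.exp (-(2 * Real.pi * n * (1 / (N * (q : ℝ) ^ 2 * T)))) : ℂ) with hA
  have hAlim : ∀ r : ℕ, r < m → Tendsto (fun T => kap r * (g * A (r + 1) T)) atTop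
      (𝓝 (∑ u : (ZMod q)ˣ, χ (u : ZMod q) * w r u)) := by
    intro r hr
    have h1 : Tendsto (fun T : ℝ => ∑ u : (ZMod q)ˣ, χ (u : ZMod q) * (kap r * Fs (co f) (r + 1)
      (((((u : ZMod q).val : ℤ) : ℤ) : ℂ) / q + ((1 / (N * (q : ℝ) ^ 2 * T) : ℝ) : ℂ) * Complex.I)))
      atTop (𝓝 (∑ u : (ZMod q)ˣ, χ (u : ZMod q) * w r u)) :=
      tendsto_finsetSum _ fun u _ => ((hw r u hr).2).const_mul _
    refine h1.congr' ?_
    filter_upwards [eventually_gt_atTop (0 : ℝ)] with T hT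
    have hy : 0 < 1 / (N * (q : ℝ) ^ 2 * T) := by positivity
    have h2 := Fs_gauss hC (r + 1) χ hχ hy
    rw [hA]
    simp only [hb]
    rw [← h2, Finset.mul_sum]
    refine Finset.sum_congr rfl fun u _ => ?_
    ring
  -- the first sum
  set XT : ℝ → ℝ := fun T => N * (q : ℝ) ^ 2 * T / (2 * Real.pi) with hXT
  have hfirst : Tendsto (fun T : ℝ => kap (m - 1) * (g * ∑' n : ℕ, b n / (n : ℂ) ^ m *
      (Vk m (n / XT T) : ℂ))) atTop (𝓝 (∑ u : (ZMod q)ˣ, χ (u : ZMod q) * w (m - 1) u)) := by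
    have h1 : ∀ j ∈ Finset.range m, Tendsto (fun T : ℝ => (((1 / XT T) ^ j /
        (j.factorial : ℝ) : ℝ) : ℂ) * (kap (m - 1) * (g * A (m - j) T))) atTop
        (𝓝 (if j = 0 then ∑ u : (ZMod q)ˣ, χ (u : ZMod q) * w (m - 1) u else 0)) := by
      intro j hj
      have hj' := Finset.mem_range.1 hj
      have h2 := (hAlim (m - j - 1) (by omega)).const_mul (kap (m - 1) * (kap (m - j - 1))⁻¹)
      have e1 : m - j - 1 + 1 = m - j := by omega
      rw [e1] at h2
      have h3 : ∀ T, kap (m - 1) * (kap (m - j - 1))⁻¹ * (kap (m - j - 1) * (g * A (m - j) T)) =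
          kap (m - 1) * (g * A (m - j) T) := by
        intro T
        have := kap_ne (m - j - 1)
        field_simp
      simp only [h3] at h2
      rcases Nat.eq_zero_or_pos j with rfl | hj0
      · simp only [pow_zero, Nat.factorial_zero, Nat.cast_one, div_one, Complex.ofReal_one, one_mul,
          if_true]
        have e2 : kap (m - 1) * (kap (m - 0 - 1))⁻¹ = 1 := by
          rw [Nat.sub_zero]
          exact mul_inv_cancel₀ (kap_ne _)
        rw [e2, one_mul] at h2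
        have e3 : m - 0 - 1 = m - 1 := by omega
        rw [e3] at h2
        exact h2
      · rw [if_neg hj0.ne']
        have h4 : Tendsto (fun T : ℝ => (((1 / XT T) ^ j / (j.factorial : ℝ) : ℝ) : ℂ)) atTop
            (𝓝 0) := by
          have h5 : Tendsto XT atTop atTop := by
            have : XT = fun T => (N * (q : ℝ) ^ 2 / (2 * Real.pi)) * T := by
              funext T; rw [hXT]; ring
            rw [this]
            exact Tendsto.const_mul_atTop (by positivity) tendsto_id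
          have h6 : Tendsto (fun T : ℝ => (1 / XT T) ^ j / (j.factorial : ℝ)) atTop (𝓝 0) := by
            have h7 : Tendsto (fun T : ℝ => 1 / XT T) atTop (𝓝 0) := by
              simp only [one_div]
              exact tendsto_inv_atTop_zero.comp h5
            have h8 := (h7.pow j).div_const (j.factorial : ℝ)
            rwa [zero_pow hj0.ne', zero_div] at h8
          have h9 := (Complex.continuous_ofReal.tendsto 0).comp h6
          rw [Complex.ofReal_zero] at h9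
          exact h9
        have h10 := h4.mul h2
        rwa [zero_mul] at h10
    have h11 := tendsto_finsetSum _ h1
    have e4 : (∑ j ∈ Finset.range m, (if j = 0 then
        ∑ u : (ZMod q)ˣ, χ (u : ZMod q) * w (m - 1) u else 0)) =
        ∑ u : (ZMod q)ˣ, χ (u : ZMod q) * w (m - 1) u := by
      rw [Finset.sum_ite_eq' (Finset.range m) 0
        (fun _ => ∑ u : (ZMod q)ˣ, χ (u : ZMod q) * w (m - 1) u),
        if_pos (Finset.mem_range.2 (by omega))]
    rw [e4] at h11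
    refine h11.congr' ?_
    filter_upwards [eventually_gt_atTop (0 : ℝ)] with T hT
    have hXT0 : 0 < XT T := by rw [hXT]; positivity
    rw [Vk_split hbG m hXT0, Finset.mul_sum, Finset.mul_sum]
    refine Finset.sum_congr rfl fun j _ => ?_
    have e5 : A (m - j) T = ∑' n : ℕ, b n / (n : ℂ) ^ (m - j) * (Real.exp (-(n / XT T)) : ℂ) := by
      rw [hA]
      refine tsum_congr fun n => ?_
      congr 3
      rw [hXT]
      field_simp
    rw [← e5]
    ring
  -- the second sum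
  have hsecond : Tendsto (fun T : ℝ => ∑' n : ℕ, (starRingEnd ℂ) (b n) / (n : ℂ) ^ m *
      (Vk m (n / (1 / (2 * Real.pi * T))) : ℂ)) atTop (𝓝 0) := by
    have h1 : ∀ j ∈ Finset.range m, Tendsto (fun T : ℝ => (((1 / (1 / (2 * Real.pi * T))) ^ j /
        (j.factorial : ℝ) : ℝ) : ℂ) * ∑' n : ℕ, (starRingEnd ℂ) (b n) / (n : ℂ) ^ (m - j) *
        (Real.exp (-(n / (1 / (2 * Real.pi * T)))) : ℂ)) atTop (𝓝 0) := by
      intro j hj
      have h2 := (Fs_dec hbGc (m - j)) j 0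
      have h3 := h2.const_mul ((2 * Real.pi : ℂ) ^ j / (j.factorial : ℂ))
      rw [mul_zero] at h3
      refine h3.congr fun T => ?_
      have e1 : Fs (fun n => (starRingEnd ℂ) (b n)) (m - j) (((0 : ℝ) : ℂ) + (T : ℂ) * Complex.I) =
          ∑' n : ℕ, (starRingEnd ℂ) (b n) / (n : ℂ) ^ (m - j) *
            (Real.exp (-(n / (1 / (2 * Real.pi * T)))) : ℂ) := by
        unfold Fs
        refine tsum_congr fun n => ?_
        congr 1
        rw [Complex.ofReal_exp]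
        congr 1
        rw [div_div_eq_mul_div, div_one]
        push_cast
        linear_combination (2 * Real.pi * n * T : ℂ) * Complex.I_sq
      rw [e1, one_div_one_div]
      push_cast
      ring
    have h2 := tendsto_finsetSum _ h1
    rw [Finset.sum_const_zero] at h2
    refine h2.congr' ?_
    filter_upwards [eventually_gt_atTop (0 : ℝ)] with T hT
    rw [Vk_split hbGc m (by positivity)]
  have hall : Tendsto (fun T : ℝ => kap (m - 1) * (g * ∑' n : ℕ, b n / (n : ℂ) ^ m *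
      (Vk m (n / XT T) : ℂ)) + kap (m - 1) * (g * (W * ∑' n : ℕ, (starRingEnd ℂ) (b n) /
      (n : ℂ) ^ m * (Vk m (n / (1 / (2 * Real.pi * T))) : ℂ)))) atTop
      (𝓝 (∑ u : (ZMod q)ˣ, χ (u : ZMod q) * w (m - 1) u)) := by
    have h1 := hfirst.add (((hsecond.const_mul W).const_mul g).const_mul (kap (m - 1)))
    rwa [mul_zero, mul_zero, mul_zero, add_zero] at h1
  have hconst : Tendsto (fun _ : ℝ => kap (m - 1) * (g * F0)) atTop
      (𝓝 (∑ u : (ZMod q)ˣ, χ (u : ZMod q) * w (m - 1) u)) := by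
    refine hall.congr' ?_
    filter_upwards [eventually_gt_atTop (0 : ℝ)] with T hT
    have h5 := hF (XT T) (1 / (2 * Real.pi * T)) (by rw [hXT]; positivity)
      (by positivity) (by rw [hXT]; field_simp; ring)
    rw [h5]
    ring
  exact tendsto_nhds_unique tendsto_const_nhds hconst

end Pool.Agent.Y727.KS
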