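import Pool.Agent.Y727.KS.Per
import Pool.Agent.W388.TW.Good

/-!
# The finite dimensional space of the periods of a cusp form of weight `2 m`
-/

set_option autoImplicit false

open Complex Filter Topology Set Polynomial UpperHalfPlane MatrixGroups CongruenceSubgroup

namespace Pool.Agent.Y727.KS

variable {N : ℕ} [NeZero N] {m : ℕ}

/-- the Fourier coefficients -/
noncomputable def co (f : CuspForm (Gamma0 N : Subgroup (GL (Fin 2) ℝ)) (2 * m : ℤ)) (n : ℕ) : ℂ :=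
  (qExpansion 1 f).coeff n

lemma gr (hm : 1 ≤ m) (f : CuspForm (Gamma0 N : Subgroup (GL (Fin 2) ℝ)) (2 * m : ℤ)) :
    ∃ C : ℝ, 0 ≤ C ∧ Gr (co f) C m := by
  obtain ⟨C, hC⟩ := W388.coeff_bound f (by omega)
  refine ⟨|C|, abs_nonneg _, W388.coeff_zero f, fun n hn => ?_⟩
  have h := hC n hn
  have e : (((2 * m : ℤ) : ℝ) / 2) = m := by push_cast; ring
  rw [e] at h
  exact h.trans (mul_le_mul_of_nonneg_right (le_abs_self C) (by positivity))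

lemma Fs_zero (f : CuspForm (Gamma0 N : Subgroup (GL (Fin 2) ℝ)) (2 * m : ℤ)) (z : ℍ) :
    Fs (co f) 0 (z : ℂ) = f z := by
  have h1 : (1 : ℝ) ∈ (Gamma0 N : Subgroup (GL (Fin 2) ℝ)).strictPeriods := by
    rw [strictPeriods_Gamma0]
    exact AddSubgroup.mem_zmultiples 1
  have h2 := ModularForm.hasSum_qExpansion (f := f) one_pos h1 z
  rw [← h2.tsum_eq]
  unfold Fs co
  refine tsum_congr fun n => ?_
  rw [pow_zero, div_one, Function.Periodic.qParam, ← Complex.exp_nat_mul]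
  congr 2
  push_cast
  ring

lemma rel_gamma (f : CuspForm (Gamma0 N : Subgroup (GL (Fin 2) ℝ)) (2 * m : ℤ)) {γ : SL(2, ℤ)}
    (hγ : γ ∈ Gamma0 N) (z : ℂ) (hz : 0 < z.im) :
    Fs (co f) 0 (((γ 0 0 : ℤ) * z + (γ 0 1 : ℤ)) / ((γ 1 0 : ℤ) * z + (γ 1 1 : ℤ))) *
      ((γ 0 0 * γ 1 1 - γ 0 1 * γ 1 0 : ℤ) : ℂ) =
      1 * (((γ 1 0 : ℤ) : ℂ) * z + (γ 1 1 : ℤ)) ^ (2 * m) * Fs (co f) 0 z := by
  set τ : ℍ := ⟨z, hz⟩ with hτ
  have hτc : (τ : ℂ) = z := rfl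
  have h1 := SlashInvariantForm.slash_action_eqn_SL'' f hγ τ
  have h2 : ((γ • τ : ℍ) : ℂ) =
      ((γ 0 0 : ℤ) * z + (γ 0 1 : ℤ)) / ((γ 1 0 : ℤ) * z + (γ 1 1 : ℤ)) := by
    rw [coe_specialLinearGroup_apply, hτc]
    simp
  have h3 : denom (γ : GL (Fin 2) ℝ) τ = ((γ 1 0 : ℤ) : ℂ) * z + (γ 1 1 : ℤ) := by
    rw [ModularGroup.denom_apply, hτc]
  have h4 : (γ 0 0 * γ 1 1 - γ 0 1 * γ 1 0 : ℤ) = 1 := by
    have := γ.det_coe
    rw [Matrix.det_fin_two] at this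
    exact this
  rw [← Fs_zero, ← Fs_zero, h2, h3, hτc] at h1
  rw [h4, Int.cast_one, mul_one, h1, one_mul]
  congr 1

/-- the Fricke relation -/
def Fri (f : CuspForm (Gamma0 N : Subgroup (GL (Fin 2) ℝ)) (2 * m : ℤ)) (ε : ℝ) : Prop :=
  ∀ τ τ' : ℍ, (τ' : ℂ) * ((N : ℂ) * (τ : ℂ)) = -1 →
    f τ' = (ε : ℂ) * (((Real.sqrt N : ℝ) : ℂ) * (τ : ℂ) / Complex.I) ^ (2 * m : ℤ) * f τ

lemma rel_fricke {f : CuspForm (Gamma0 N : Subgroup (GL (Fin 2) ℝ)) (2 * m : ℤ)} {ε : ℝ}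
    (hf : Fri f ε) (z : ℂ) (hz : 0 < z.im) :
    Fs (co f) 0 ((((0 : ℤ) : ℂ) * z + ((-1 : ℤ) : ℂ)) / (((N : ℤ) : ℂ) * z + ((0 : ℤ) : ℂ))) *
      ((0 * 0 - (-1) * (N : ℤ) : ℤ) : ℂ) =
      ((ε : ℂ) * (-1) ^ m * N / (N : ℂ) ^ m) * (((N : ℤ) : ℂ) * z + ((0 : ℤ) : ℂ)) ^ (2 * m) *
        Fs (co f) 0 z := by
  have hN : (0 : ℝ) < N := Nat.cast_pos.2 (Nat.pos_of_ne_zero (NeZero.ne N))
  have hNc : (N : ℂ) ≠ 0 := Nat.cast_ne_zero.2 (NeZero.ne N)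
  have hz0 : z ≠ 0 := by rintro rfl; simp at hz
  have hdet : (0 : ℤ) < 0 * 0 - (-1) * (N : ℤ) := by
    have := Nat.pos_of_ne_zero (NeZero.ne N)
    push_cast
    omega
  have him := act_im hdet hz
  set w : ℂ := (((0 : ℤ) : ℂ) * z + ((-1 : ℤ) : ℂ)) / (((N : ℤ) : ℂ) * z + ((0 : ℤ) : ℂ)) with hw
  have hw' : w = -1 / ((N : ℂ) * z) := by
    rw [hw]
    push_cast
    ring
  set τ : ℍ := ⟨z, hz⟩ with hτ
  set τ' : ℍ := ⟨w, him⟩ with hτ'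
  have h1 := hf τ τ' (by
    show w * ((N : ℂ) * z) = -1
    rw [hw']
    field_simp)
  rw [← Fs_zero, ← Fs_zero] at h1
  have h2 : (τ : ℂ) = z := rfl
  have h3 : (τ' : ℂ) = w := rfl
  rw [h2, h3] at h1
  rw [h1]
  have hsq : ((Real.sqrt N : ℝ) : ℂ) ^ 2 = (N : ℂ) := by
    have h1 : (Real.sqrt N) ^ 2 = (N : ℝ) := Real.sq_sqrt hN.le
    exact_mod_cast congrArg (fun x : ℝ => (x : ℂ)) h1
  have h4 : (((Real.sqrt N : ℝ) : ℂ) * z / Complex.I) ^ (2 * m : ℤ) =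
      (-1) ^ m * (N : ℂ) ^ m * z ^ (2 * m) := by
    rw [show (2 * m : ℤ) = ((2 * m : ℕ) : ℤ) by push_cast; rfl, zpow_natCast, pow_mul, div_pow,
      mul_pow, hsq, Complex.I_sq, pow_mul]
    rw [div_neg, div_one, neg_pow, mul_pow]
    ring
  have h5 : (N : ℂ) ^ (2 * m) = (N : ℂ) ^ m * (N : ℂ) ^ m := by
    rw [← pow_add]
    congr 1
    omega
  rw [h4]
  push_cast
  rw [add_zero, mul_pow (N : ℂ) z, h5]
  field_simp
  ring

/-- the period space -/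
theorem exists_periods (hm : 1 ≤ m) (f : CuspForm (Gamma0 N : Subgroup (GL (Fin 2) ℝ)) (2 * m : ℤ))
    {ε : ℝ} (hf : Fri f ε) : ∃ V : Submodule ℚ ℂ, V.FG ∧
      (∀ γ : SL(2, ℤ), γ ∈ Gamma0 N →
        Pv (co f) (2 * m - 1) V (γ 0 0) (γ 0 1) (γ 1 0) (γ 1 1) 1) ∧
      Pv (co f) (2 * m - 1) V 0 (-1) N 0 ((ε : ℂ) * (-1) ^ m * N / (N : ℂ) ^ m) := by
  classical
  obtain ⟨C, hC0, hC⟩ := gr hm f
  have hD : 1 ≤ 2 * m - 1 := by omega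
  have hdet : ∀ γ : SL(2, ℤ), γ 0 0 * γ 1 1 - γ 0 1 * γ 1 0 = 1 := by
    intro γ
    have := γ.det_coe
    rw [Matrix.det_fin_two] at this
    exact this
  have hdet0 : ∀ γ : SL(2, ℤ), 0 < γ 0 0 * γ 1 1 - γ 0 1 * γ 1 0 := fun γ => by
    rw [hdet γ]; norm_num
  -- the constants for the elements of the group
  have hex : ∀ (γ : Gamma0 N) (j : Fin (2 * m - 1)), ∃ v : ℂ, ∀ z : ℂ, 0 < z.im →
      EQ (co f) (2 * m - 1) (((((γ : SL(2, ℤ)) 0 0 : ℤ) : ℂ) * z + (((γ : SL(2, ℤ)) 0 1 : ℤ) : ℂ)) /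
        ((((γ : SL(2, ℤ)) 1 0 : ℤ) : ℂ) * z + (((γ : SL(2, ℤ)) 1 1 : ℤ) : ℂ))) (X ^ (j : ℕ)) =
      1 * EQ (co f) (2 * m - 1) z (sl (2 * m - 1) ((γ : SL(2, ℤ)) 0 0) ((γ : SL(2, ℤ)) 0 1)
        ((γ : SL(2, ℤ)) 1 0) ((γ : SL(2, ℤ)) 1 1) (X ^ (j : ℕ))) + v := by
    intro γ j
    exact trans hC hm (hdet0 γ) (fun z hz => rel_gamma f γ.2 z hz) _
      (lt_of_le_of_lt (natDegree_X_pow_le _) j.2)
  choose vg hvg using hex
  have hNn : 0 < N := Nat.pos_of_ne_zero (NeZero.ne N)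
  have hex2 : ∀ (j : Fin (2 * m - 1)), ∃ v : ℂ, ∀ z : ℂ, 0 < z.im →
      EQ (co f) (2 * m - 1) ((((0 : ℤ) : ℂ) * z + ((-1 : ℤ) : ℂ)) /
        (((N : ℤ) : ℂ) * z + ((0 : ℤ) : ℂ))) (X ^ (j : ℕ)) =
      ((ε : ℂ) * (-1) ^ m * N / (N : ℂ) ^ m) * EQ (co f) (2 * m - 1) z
        (sl (2 * m - 1) 0 (-1) N 0 (X ^ (j : ℕ))) + v := by
    intro j
    exact trans hC hm (by push_cast; omega) (fun z hz => rel_fricke hf z hz) _
      (lt_of_le_of_lt (natDegree_X_pow_le _) j.2)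
  choose vf hvf using hex2
  -- generators
  have hfgSL : Group.FG SL(2, ℤ) :=
    (Group.fg_iff).2 ⟨{ModularGroup.S, ModularGroup.T}, SpecialLinearGroup.SL2Z_generators,
      Set.toFinite _⟩
  have hfg : Group.FG (Gamma0 N) := Subgroup.fg_of_index_ne_zero _
  obtain ⟨S, hS, hSfin⟩ := Group.fg_iff.1 hfg
  set G : Set ℂ := (fun p : Gamma0 N × Fin (2 * m - 1) => vg p.1 p.2) '' (S ×ˢ Set.univ) ∪
    Set.range vf with hG
  have hGfin : G.Finite := ((hSfin.prod Set.finite_univ).image _).union (Set.finite_range _)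
  refine ⟨Submodule.span ℚ G, Submodule.fg_span hGfin, ?_, ?_⟩
  · -- the group
    have key : ∀ γ : Gamma0 N, Pv (co f) (2 * m - 1) (Submodule.span ℚ G) ((γ : SL(2, ℤ)) 0 0)
        ((γ : SL(2, ℤ)) 0 1) ((γ : SL(2, ℤ)) 1 0) ((γ : SL(2, ℤ)) 1 1) 1 := by
      intro γ
      have hγ : γ ∈ Subgroup.closure S := by rw [hS]; exact Subgroup.mem_top _
      induction hγ using Subgroup.closure_induction with
      | mem x hx =>
          refine Pv_of fun j hj => ⟨vg x ⟨j, hj⟩, Submodule.subset_span ?_, hvg x ⟨j, hj⟩⟩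
          exact Or.inl ⟨(x, ⟨j, hj⟩), ⟨hx, trivial⟩, rfl⟩
      | one =>
          have e : Pv (co f) (2 * m - 1) (Submodule.span ℚ G) 1 0 0 1 1 := Pv_one
          simpa using e
      | mul x y _ _ hx hy =>
          have e := Pv_mul hD (hdet0 x) (hdet0 y) hx hy
          have e00 : (((x * y : Gamma0 N) : SL(2, ℤ)) 0 0 : ℤ) =
              (x : SL(2, ℤ)) 0 0 * (y : SL(2, ℤ)) 0 0 + (x : SL(2, ℤ)) 0 1 * (y : SL(2, ℤ)) 1 0 := by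
            simp [Matrix.mul_apply, Fin.sum_univ_two]
          have e01 : (((x * y : Gamma0 N) : SL(2, ℤ)) 0 1 : ℤ) =
              (x : SL(2, ℤ)) 0 0 * (y : SL(2, ℤ)) 0 1 + (x : SL(2, ℤ)) 0 1 * (y : SL(2, ℤ)) 1 1 := by
            simp [Matrix.mul_apply, Fin.sum_univ_two]
          have e10 : (((x * y : Gamma0 N) : SL(2, ℤ)) 1 0 : ℤ) =
              (x : SL(2, ℤ)) 1 0 * (y : SL(2, ℤ)) 0 0 + (x : SL(2, ℤ)) 1 1 * (y : SL(2, ℤ)) 1 0 := by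
            simp [Matrix.mul_apply, Fin.sum_univ_two]
          have e11 : (((x * y : Gamma0 N) : SL(2, ℤ)) 1 1 : ℤ) =
              (x : SL(2, ℤ)) 1 0 * (y : SL(2, ℤ)) 0 1 + (x : SL(2, ℤ)) 1 1 * (y : SL(2, ℤ)) 1 1 := by
            simp [Matrix.mul_apply, Fin.sum_univ_two]
          rw [e00, e01, e10, e11]
          exact e
      | inv x _ hx =>
          have e := Pv_inv hD (hdet x) hx
          have e1 : ((x⁻¹ : Gamma0 N) : SL(2, ℤ)) = (x : SL(2, ℤ))⁻¹ := rfl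
          rw [e1, Matrix.SpecialLinearGroup.SL2_inv_expl]
          exact e
    exact fun γ hγ => key ⟨γ, hγ⟩
  · exact Pv_of fun j hj => ⟨vf ⟨j, hj⟩, Submodule.subset_span (Or.inr ⟨⟨j, hj⟩, rfl⟩),
      hvf ⟨j, hj⟩⟩

/-- the values at the cusps `u / q` -/
theorem cusp_lim (hm : 1 ≤ m) (f : CuspForm (Gamma0 N : Subgroup (GL (Fin 2) ℝ)) (2 * m : ℤ))
    {ε : ℝ} {V : Submodule ℚ ℂ}
    (hV1 : ∀ γ : SL(2, ℤ), γ ∈ Gamma0 N →
        Pv (co f) (2 * m - 1) V (γ 0 0) (γ 0 1) (γ 1 0) (γ 1 1) 1)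
    (hV2 : Pv (co f) (2 * m - 1) V 0 (-1) N 0 ((ε : ℂ) * (-1) ^ m * N / (N : ℂ) ^ m))
    {q : ℕ} [NeZero q] (u v d : ℤ) (hd : q * d - N * u * v = 1) (P : ℚ[X])
    (hP : P.natDegree < 2 * m - 1) :
    ∃ w ∈ V, Tendsto (fun T : ℝ => EQ (co f) (2 * m - 1)
      ((u : ℂ) / q + ((1 / (N * (q : ℝ) ^ 2 * T) : ℝ) : ℂ) * Complex.I) P) atTop (𝓝 w) := by
  obtain ⟨C, hC0, hC⟩ := gr hm f
  have hD : 1 ≤ 2 * m - 1 := by omega
  have hq : (q : ℂ) ≠ 0 := Nat.cast_ne_zero.2 (NeZero.ne q)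
  have hq0 : (0 : ℝ) < q := Nat.cast_pos.2 (Nat.pos_of_ne_zero (NeZero.ne q))
  have hN : (0 : ℝ) < N := Nat.cast_pos.2 (Nat.pos_of_ne_zero (NeZero.ne N))
  have hNc : (N : ℂ) ≠ 0 := Nat.cast_ne_zero.2 (NeZero.ne N)
  have hNn : 0 < N := Nat.pos_of_ne_zero (NeZero.ne N)
  let γ : SL(2, ℤ) := ⟨!![d, u; (N : ℤ) * v, (q : ℤ)], by
    rw [Matrix.det_fin_two_of]; linarith⟩
  have hγ : γ ∈ Gamma0 N := by
    rw [Gamma0_mem]
    simp [γ]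
  have g00 : γ 0 0 = d := rfl
  have g01 : γ 0 1 = u := rfl
  have g10 : γ 1 0 = (N : ℤ) * v := rfl
  have g11 : γ 1 1 = (q : ℤ) := rfl
  obtain ⟨v1, hv1, hv1'⟩ := hV1 γ hγ P hP
  rw [g00, g01, g10, g11] at hv1'
  obtain ⟨v2, hv2, hv2'⟩ := hV2 (sl (2 * m - 1) d u ((N : ℤ) * v) (q : ℤ) P)
    (sl_natDegree hD _ _ _ _ _)
  refine ⟨v2 + v1, V.add_mem hv2 hv1, ?_⟩
  set Q := sl (2 * m - 1) 0 (-1) N 0 (sl (2 * m - 1) d u ((N : ℤ) * v) (q : ℤ) P) with hQ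
  have hlim := (Ep_dec hC (2 * m - 1) (mp Q)) 0 ((v : ℝ) / q)
  simp only [pow_zero, one_mul] at hlim
  have hlim2 : Tendsto (fun T : ℝ => ((ε : ℂ) * (-1) ^ m * N / (N : ℂ) ^ m) *
      Ep (co f) (2 * m - 1) (mp Q) ((((v : ℝ) / q : ℝ) : ℂ) + (T : ℂ) * Complex.I) + (v2 + v1))
      atTop (𝓝 (v2 + v1)) := by
    have := (hlim.const_mul ((ε : ℂ) * (-1) ^ m * N / (N : ℂ) ^ m)).add_const (v2 + v1)
    rwa [mul_zero, zero_add] at this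
  refine hlim2.congr' ?_
  filter_upwards [eventually_gt_atTop (0 : ℝ)] with T hT
  have hTc : (T : ℂ) ≠ 0 := Complex.ofReal_ne_zero.2 hT.ne'
  set z' : ℂ := (((v : ℝ) / q : ℝ) : ℂ) + (T : ℂ) * Complex.I with hz'
  have hz'im : 0 < z'.im := by
    rw [hz']
    simpa using hT
  have hz'c : z' = (v : ℂ) / q + (T : ℂ) * Complex.I := by
    rw [hz']; push_cast; rfl
  have hz'0 : z' ≠ 0 := by
    intro h
    rw [h] at hz'im
    simp at hz'im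
  have hdet : (0 : ℤ) < 0 * 0 - (-1) * (N : ℤ) := by push_cast; omega
  set w : ℂ := (((0 : ℤ) : ℂ) * z' + ((-1 : ℤ) : ℂ)) / (((N : ℤ) : ℂ) * z' + ((0 : ℤ) : ℂ)) with hw
  have hwim : 0 < w.im := act_im hdet hz'im
  have hw' : w = -1 / ((N : ℂ) * z') := by
    rw [hw]
    push_cast
    ring
  have hdc : (q : ℂ) * (d : ℂ) - (N : ℂ) * (u : ℂ) * (v : ℂ) = 1 := by exact_mod_cast hd
  have h1 := hv2' z' hz'im
  rw [← hw] at h1
  have h2 := hv1' w hwim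
  have h3 : (((d : ℤ) : ℂ) * w + ((u : ℤ) : ℂ)) / ((((N : ℤ) * v : ℤ) : ℂ) * w + ((q : ℤ) : ℂ)) =
      (u : ℂ) / q + ((1 / (N * (q : ℝ) ^ 2 * T) : ℝ) : ℂ) * Complex.I := by
    have e1 : ((((N : ℤ) * v : ℤ) : ℂ) * w + ((q : ℤ) : ℂ)) = (q : ℂ) * (T : ℂ) * Complex.I / z' := by
      rw [hw']
      push_cast
      field_simp
      rw [hz'c]
      field_simp
      ring
    have e2 : (((d : ℤ) : ℂ) * w + ((u : ℤ) : ℂ)) =
        ((N : ℂ) * u * (T : ℂ) * Complex.I - 1 / q) / ((N : ℂ) * z') := by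
      have e3 : ((d : ℤ) : ℂ) * (-1 / ((N : ℂ) * z')) + ((u : ℤ) : ℂ) =
          ((N : ℂ) * u * z' - d) / ((N : ℂ) * z') := by
        field_simp
        ring
      rw [hw', e3]
      congr 1
      rw [hz'c]
      field_simp
      linear_combination (-1 : ℂ) * hdc
    rw [e1, e2]
    have hI := Complex.I_ne_zero
    push_cast
    field_simp
    have hI2 : Complex.I ^ 2 = -1 := Complex.I_sq
    linear_combination (-1 : ℂ) * hI2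
  rw [h3, one_mul, h1] at h2
  rw [h2]
  show ((ε : ℂ) * (-1) ^ m * N / (N : ℂ) ^ m) * Ep (co f) (2 * m - 1) (mp Q) z' + (v2 + v1) =
    ((ε : ℂ) * (-1) ^ m * N / (N : ℂ) ^ m) * Ep (co f) (2 * m - 1) (mp Q) z' + v2 + v1
  ring

end Pool.Agent.Y727.KS
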