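import Pool.Agent.Y727.KS.Cen
import Pool.Agent.TH940.Pack
import Pool.Agent.TH936.NF.Bd
import Pool.Agent.TH936.HK.Wt

/-!
# The twists of a newform of weight `2 m` by all characters of large order
-/

set_option autoImplicit false

open Complex Filter Topology Set UpperHalfPlane MatrixGroups CongruenceSubgroup ZMod

namespace Pool.Agent.Y727.KS

open Pool.Agent.W440.TW Pool.Agent.W108.TW Pool.Agent.W192.CY
open Pool.Agent.TH940 (mfinn order_bound)

variable {N : ℕ} [NeZero N] {m : ℕ}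

/-- the real normalised coefficients -/
noncomputable def cr (f : CuspForm (Gamma0 N : Subgroup (GL (Fin 2) ℝ)) (2 * m : ℤ)) (n : ℕ) : ℝ :=
  (co f n).re / (n : ℝ) ^ (m - 1)

theorem pack (hm : 1 ≤ m) {f : CuspForm (Gamma0 N : Subgroup (GL (Fin 2) ℝ)) (2 * m : ℤ)} {ε : ℝ}
    (hf : W388.IsNewf N (2 * m : ℤ) f ε) (hcoef : Coef N (cr f)) :
    ∃ (K : ℝ) (F : (q : ℕ) → DirichletCharacter ℂ q → ℂ → ℂ), 0 < K ∧
      (∀ (q : ℕ) (χ : DirichletCharacter ℂ q), 1 ≤ q → Nat.Coprime q N → χ.IsPrimitive →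
        Differentiable ℂ (F q χ) ∧ (∀ s : ℂ, (m : ℝ) + 1 / 2 < s.re →
          HasSum (fun n : ℕ => χ (n : ZMod q) * co f n * (n : ℂ) ^ (-s)) (F q χ s)) ∧
        analyticOrderAt (F q χ) (m : ℂ) ≠ ⊤ ∧
        (analyticOrderNatAt (F q χ) (m : ℂ) : ℝ) ≤ K * (1 + Real.log q)) ∧
      ∀ δ : ℝ, 0 < δ → ∃ q0 : ℝ, ∀ q : ℕ, q0 ≤ q → 1 < q → Nat.Coprime q N →
        ∀ χ : DirichletCharacter ℂ q, χ.IsPrimitive → (q : ℝ) ^ (3 / 4 + δ) ≤ orderOf χ →
          F q χ (m : ℂ) ≠ 0 := by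
  classical
  have hNn : 0 < N := Nat.pos_of_ne_zero (NeZero.ne N)
  have hN1 : (1 : ℝ) ≤ N := by exact_mod_cast hNn
  have hN0 : (0 : ℝ) < N := by linarith
  have hsN : 1 ≤ Real.sqrt N := Real.one_le_sqrt.2 hN1
  have hpi := Real.pi_pos
  have hm1 : (1 : ℝ) ≤ m := by exact_mod_cast hm
  have hH := W388.heckeSeq_lamf hf
  have hR := W388.p_rs N (2 * m : ℤ) (by omega) f ε hf
  obtain ⟨A, hA, d1, d2, d3⟩ := W388.p_dir N hNn (W388.lamf f) hH hR
  obtain ⟨C, hC0, hC⟩ := gr hm f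
  obtain ⟨K, hK, hmel⟩ := Pool.Agent.TH936.NF.mellinKB m hm m C 8 (by positivity) (by norm_num)
    (by linarith)
  have hc0 : co f 0 = 0 := hC.zero
  -- the functions
  have hex : ∀ (q : ℕ) (χ : DirichletCharacter ℂ q), ∃ F : ℂ → ℂ,
      (∀ (_ : NeZero q), 1 ≤ q → Nat.Coprime q N → χ.IsPrimitive → Differentiable ℂ F ∧
        (∀ s : ℂ, 1 < s.re →
          F (s + ((m : ℂ) - 1 / 2)) =
            ∑' n : ℕ, χ (n : ZMod q) * (W388.lamf f n : ℂ) * (n : ℂ) ^ (-s)) ∧
        (∀ X Y : ℝ, 0 < X → 0 < Y → X * Y = N * (q : ℝ) ^ 2 / (4 * Real.pi ^ 2) →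
          F m = ∑' n : ℕ, χ (n : ZMod q) * co f n / (n : ℂ) ^ m *
              (Vk m (n / X) : ℂ) +
            ((ε : ℂ) * χ (N : ZMod q) * gaussSum χ (ZMod.stdAddChar (N := q)) ^ 2 / q) *
            ∑' n : ℕ, (starRingEnd ℂ) (χ (n : ZMod q) * co f n) / (n : ℂ) ^ m *
              (Vk m (n / Y) : ℂ)) ∧
        ∀ s : ℂ, ‖s - m‖ ≤ 8 → ‖F s‖ ≤ K * (Real.sqrt N * q) ^ (2 * (8 : ℝ))) := by
    intro q χ
    by_cases h : 1 ≤ q ∧ Nat.Coprime q N ∧ χ.IsPrimitive
    · obtain ⟨h1, h2, h3⟩ := h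
      have : NeZero q := ⟨by omega⟩
      have hq1 : (1 : ℝ) ≤ q := by exact_mod_cast h1
      have hRq : 1 ≤ Real.sqrt N * q := by nlinarith
      set w : ℂ := (ε : ℂ) * χ (-(N : ZMod q)) * gaussSum χ (stdAddChar (N := q)) /
        gaussSum χ⁻¹ (stdAddChar (N := q)) with hw
      have hχi := inv_primitive χ h3
      have hg0 : gaussSum χ (stdAddChar (N := q)) ≠ 0 := gauss_ne_zero χ h3
      have hwn : ‖w‖ = 1 := by
        have e1 : ‖gaussSum χ⁻¹ (stdAddChar (N := q))‖ = ‖gaussSum χ (stdAddChar (N := q))‖ :=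
          gauss_conj χ
        have e2 : ‖χ (-(N : ZMod q))‖ = 1 := by
          have hu : IsUnit (-(N : ZMod q)) :=
            ((ZMod.isUnit_iff_coprime N q).2 h2.symm).neg
          have := χ.unit_norm_eq_one hu.unit
          simpa using this
        have e3 : ‖(ε : ℂ)‖ = 1 := by
          rcases hf.sign with h | h <;> simp [h]
        rw [hw, norm_div, norm_mul, norm_mul, e1, e2, e3, one_mul, one_mul]
        exact div_self (norm_ne_zero_iff.2 hg0)
      have htheta : ∀ t : ℝ, 0 < t → ∑' n : ℕ, (fun n : ℕ => χ (n : ZMod q) * co f n) n *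
          (Real.exp (-(2 * Real.pi * n / (Real.sqrt N * q)) / t) : ℂ) =
          w * (t : ℂ) ^ (2 * m) * ∑' n : ℕ, (starRingEnd ℂ) ((fun n : ℕ => χ (n : ZMod q) * co f n) n) *
            (Real.exp (-(2 * Real.pi * n / (Real.sqrt N * q)) * t) : ℂ) := by
        intro t ht
        have e := Pool.Agent.W378.CY.twist_explicit N (2 * m : ℤ) f ε hf q χ h3 h2 t ht
        have e2 : (t : ℂ) ^ (2 * m : ℤ) = (t : ℂ) ^ (2 * m) := by
          rw [show (2 * m : ℤ) = ((2 * m : ℕ) : ℤ) by push_cast; rfl, zpow_natCast]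
        rw [e2] at e
        rw [hw]
        exact e
      obtain ⟨F, hF1, hF2, hF3, hF4⟩ := hmel (fun n => χ (n : ZMod q) * co f n)
        (Real.sqrt N * q) hRq (by rw [hc0, mul_zero]) (fun n hn => by
          rw [norm_mul]
          have e1 := DirichletCharacter.norm_le_one χ (n : ZMod q)
          calc ‖χ (n : ZMod q)‖ * ‖co f n‖ ≤ 1 * ‖co f n‖ := by gcongr
            _ = ‖co f n‖ := one_mul _
            _ ≤ _ := hC.bd n hn) w hwn htheta
      have hR2 : ∀ X Y : ℝ, X * Y = N * (q : ℝ) ^ 2 / (4 * Real.pi ^ 2) →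
          X * Y = (Real.sqrt N * q) ^ 2 / (4 * Real.pi ^ 2) := by
        intro X Y h
        rw [h, mul_pow, Real.sq_sqrt hN0.le]
      have hser : ∀ s : ℂ, 1 < s.re → F (s + ((m : ℂ) - 1 / 2)) =
          ∑' n : ℕ, χ (n : ZMod q) * (W388.lamf f n : ℂ) * (n : ℂ) ^ (-s) := by
        intro s hs
        have hsum : ∀ s : ℂ, 1 < s.re →
            Summable (fun n : ℕ => ‖χ (n : ZMod q) * (W388.lamf f n : ℂ) * (n : ℂ) ^ (-s)‖) :=
          fun s hs => (d3 q χ (fun s => ∑' n : ℕ, χ (n : ZMod q) * (W388.lamf f n : ℂ) *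
            (n : ℂ) ^ (-s)) (fun _ _ => rfl)).1 s hs
        have hl0 : (W388.lamf f 0 : ℂ) = 0 := by rw [hH.zero]; simp
        have hFd : Differentiable ℂ (fun s : ℂ => F (s + ((m : ℂ) - 1 / 2))) :=
          hF1.comp (differentiable_id.add_const _)
        refine W388.ext_series (fun s : ℂ => F (s + ((m : ℂ) - 1 / 2))) hFd
          (fun n => χ (n : ZMod q) * (W388.lamf f n : ℂ))
          (by simp only [hl0, mul_zero]) hsum 3 (fun s hs => ?_) s hs
        have hre : (m : ℝ) + 2 < (s + ((m : ℂ) - 1 / 2)).re := by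
          have e0 : (s + ((m : ℂ) - 1 / 2)).re = s.re + (m - 1 / 2) := by
            rw [show ((m : ℂ) - 1 / 2) = (((m : ℝ) - 1 / 2 : ℝ) : ℂ) by push_cast; rfl,
              Complex.add_re, Complex.ofReal_re]
          rw [e0]
          linarith
        show F (s + ((m : ℂ) - 1 / 2)) = _
        rw [hF2 _ hre]
        refine tsum_congr fun n => ?_
        rcases Nat.eq_zero_or_pos n with rfl | hn
        · rw [hc0, hl0]; simp
        · have hn' : (n : ℂ) ≠ 0 := by exact_mod_cast hn.ne'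
          have e1 : co f n = (W388.lamf f n : ℂ) * (n : ℂ) ^ ((m : ℂ) - 1 / 2) := by
            have := W388.lamf_eq hf n hn.ne'
            have e : ((((2 * m : ℤ) : ℂ) - 1) / 2) = (m : ℂ) - 1 / 2 := by push_cast; ring
            rw [e] at this
            exact this
          rw [e1, show (-(s + ((m : ℂ) - 1 / 2)) : ℂ) = -s + -((m : ℂ) - 1 / 2) by ring,
            Complex.cpow_add _ _ hn', Complex.cpow_neg (n : ℂ) ((m : ℂ) - 1 / 2)]
          have hne : (n : ℂ) ^ ((m : ℂ) - 1 / 2) ≠ 0 := by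
            rw [Ne, Complex.cpow_eq_zero_iff]
            exact fun h => hn' h.1
          have hne2 := mul_inv_cancel₀ hne
          linear_combination (χ (n : ZMod q) * (W388.lamf f n : ℂ) * (n : ℂ) ^ (-s)) * hne2
      refine ⟨F, fun _ _ _ _ => ⟨hF1, hser, fun X Y hX hY hXY => ?_, hF4⟩⟩
      rw [hF3 X Y hX hY (hR2 X Y hXY), hw, Pool.Agent.W378.CY.root_number q χ h3 (ε : ℂ) (N : ZMod q)]
    · exact ⟨fun _ => 0, fun _ h1 h2 h3 => absurd ⟨h1, h2, h3⟩ h⟩
  choose F hF using hex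
  -- the order bound
  have hlog : 0 < Real.log (16 / 3) := Real.log_pos (by norm_num)
  have hApos : 0 < A := by linarith
  set B : ℝ := |Real.log (A * K)| + 16 * Real.log (Real.sqrt N) + 16 with hB
  have hlsN : 0 ≤ Real.log (Real.sqrt N) := Real.log_nonneg hsN
  have hB0 : 0 < B := by
    have := abs_nonneg (Real.log (A * K))
    rw [hB]; linarith
  refine ⟨B / Real.log (16 / 3), F, by positivity, ?_, ?_⟩
  · intro q χ hq hqN hχ
    have : NeZero q := ⟨by omega⟩
    have hq1 : (1 : ℝ) ≤ q := by exact_mod_cast hq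
    obtain ⟨g1, g2, g3, g4⟩ := hF q χ inferInstance hq hqN hχ
    obtain ⟨e1, e2, e3, e4, e5, e6⟩ := d3 q χ (fun s => F q χ (s + ((m : ℂ) - 1 / 2))) g2
    have h2 : A⁻¹ ≤ ‖F q χ (2 + ((m : ℂ) - 1 / 2))‖ := e5 2 (by norm_num)
    refine ⟨g1, ?_, ?_, ?_⟩
    · intro s hs
      have hs' : 1 < (s - ((m : ℂ) - 1 / 2)).re := by
        have e0 : (s - ((m : ℂ) - 1 / 2)).re = s.re - (m - 1 / 2) := by
          rw [show ((m : ℂ) - 1 / 2) = (((m : ℝ) - 1 / 2 : ℝ) : ℂ) by push_cast; rfl,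
            Complex.sub_re, Complex.ofReal_re]
        rw [e0]
        linarith
      have k1 := (e1 _ hs').of_norm
      have k2 := g2 _ hs'
      rw [sub_add_cancel] at k2
      have k3 := k1.hasSum
      rw [← k2] at k3
      refine k3.congr_fun fun n => ?_
      rcases Nat.eq_zero_or_pos n with rfl | hn
      · rw [hc0, hH.zero]; simp
      · have hn' : (n : ℂ) ≠ 0 := by exact_mod_cast hn.ne'
        have e1 : co f n = (W388.lamf f n : ℂ) * (n : ℂ) ^ ((m : ℂ) - 1 / 2) := by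
          have := W388.lamf_eq hf n hn.ne'
          have e : ((((2 * m : ℤ) : ℂ) - 1) / 2) = (m : ℂ) - 1 / 2 := by push_cast; ring
          rw [e] at this
          exact this
        rw [e1, show (-(s - ((m : ℂ) - 1 / 2)) : ℂ) = -s + ((m : ℂ) - 1 / 2) by ring,
          Complex.cpow_add _ _ hn']
        ring
    · intro htop
      rw [analyticOrderAt_eq_top] at htop
      have h3 : F q χ = fun _ => 0 := by
        have k1 : AnalyticOnNhd ℂ (F q χ) Set.univ := fun z _ => g1.analyticAt z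
        exact k1.eq_of_eventuallyEq (fun _ _ => analyticAt_const) htop
      rw [h3, norm_zero] at h2
      have : 0 < A⁻¹ := by positivity
      linarith
    · set n := analyticOrderNatAt (F q χ) (m : ℂ) with hn
      have h4 : ‖(2 + ((m : ℂ) - 1 / 2)) - m‖ = 3 / 2 := by
        rw [show (2 + ((m : ℂ) - 1 / 2)) - m = ((3 / 2 : ℝ) : ℂ) by push_cast; ring,
          Complex.norm_real]
        norm_num
      have h3 := order_bound (F q χ) g1 (m : ℂ) (2 + ((m : ℂ) - 1 / 2)) (R := 8)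
        (M := K * (Real.sqrt N * q) ^ (2 * (8 : ℝ))) (by norm_num) (by rw [h4]; norm_num) g4
      rw [← hn, h4] at h3
      have hb16 : (Real.sqrt N * q) ^ (2 * (8 : ℝ)) = (Real.sqrt N * q) ^ 16 := by
        rw [show (2 * (8 : ℝ)) = ((16 : ℕ) : ℝ) by norm_num, Real.rpow_natCast]
      rw [hb16] at h3
      have h4' : (3 / 2 / 8 : ℝ) = 3 / 16 := by norm_num
      rw [h4'] at h3
      have h5 : A⁻¹ ≤ K * (Real.sqrt N * q) ^ 16 * (3 / 16) ^ n := h2.trans h3
      have h6 : (16 / 3 : ℝ) ^ n ≤ A * K * (Real.sqrt N * q) ^ 16 := by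
        have h7 : (16 / 3 : ℝ) ^ n * (3 / 16) ^ n = 1 := by
          rw [← mul_pow]; norm_num
        have h8 : 0 < (16 / 3 : ℝ) ^ n := by positivity
        have h9 : 1 ≤ A * (K * (Real.sqrt N * q) ^ 16 * (3 / 16) ^ n) := by
          have := mul_le_mul_of_nonneg_left h5 hApos.le
          rwa [mul_inv_cancel₀ hApos.ne'] at this
        calc (16 / 3 : ℝ) ^ n = (16 / 3 : ℝ) ^ n * 1 := (mul_one _).symm
          _ ≤ (16 / 3 : ℝ) ^ n * (A * (K * (Real.sqrt N * q) ^ 16 * (3 / 16) ^ n)) := by gcongr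
          _ = A * K * (Real.sqrt N * q) ^ 16 * ((16 / 3 : ℝ) ^ n * (3 / 16) ^ n) := by ring
          _ = _ := by rw [h7, mul_one]
      have h10 := Real.log_le_log (by positivity) h6
      have hsp : 0 < Real.sqrt N := by linarith
      have e10 : Real.log (A * K * (Real.sqrt N * q) ^ 16) =
          Real.log (A * K) + 16 * (Real.log (Real.sqrt N) + Real.log q) := by
        rw [Real.log_mul (by positivity) (by positivity), Real.log_pow,
          Real.log_mul hsp.ne' (by positivity)]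
        norm_num
      rw [Real.log_pow, e10] at h10
      have h11 : 0 ≤ Real.log q := Real.log_nonneg hq1
      rw [div_mul_eq_mul_div, le_div_iff₀ hlog]
      have h12 := le_abs_self (Real.log (A * K))
      have h13 : 0 ≤ |Real.log (A * K)| := abs_nonneg _
      rw [hB]
      nlinarith [mul_nonneg h13 h11, mul_nonneg hlsN h11]
  · intro δ hδ
    obtain ⟨CV, hV⟩ := Pool.Agent.TH936.HK.h_vk m hm
    have hFri : Fri f ε := fun τ τ' h => hf.fricke τ τ' h
    obtain ⟨P, hPfg, hP1, hP2⟩ := exists_periods hm f hFri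
    obtain ⟨M, hM, hgal⟩ := galois_span P hPfg
    obtain ⟨q0, hq0⟩ := mfinn (Vk m) CV hV N hNn (cr f) (ε : ℂ) hcoef
      (by rcases hf.sign with h | h <;> simp [h]) M hM δ hδ
    refine ⟨q0, fun q hq hq1 hqN χ hχ hord => ?_⟩
    have : NeZero q := ⟨by omega⟩
    have hcr : ∀ n : ℕ, co f n = (((co f n).re : ℝ) : ℂ) := fun n => W388.coeff_real hf n
    have hterm : ∀ n : ℕ, co f n / (n : ℂ) ^ m = (cr f n : ℂ) / n := by
      intro n
      rcases Nat.eq_zero_or_pos n with rfl | hn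
      · rw [hc0]; simp
      · have hn' : (n : ℂ) ≠ 0 := by exact_mod_cast hn.ne'
        unfold cr
        conv_lhs => rw [hcr n]
        push_cast
        have e : (n : ℂ) ^ m = (n : ℂ) ^ (m - 1) * n := by
          rw [← pow_succ]; congr 1; omega
        rw [e]
        field_simp
    obtain ⟨a, ha1, ha2, ha3, ha4⟩ := hq0 q hq hqN (fun ψ => F q ψ (m : ℂ)) (by
      intro ψ hψ X Y hX hY hXY
      have h1 := (hF q ψ inferInstance (by omega) hqN hψ).2.2.1 X Y hX hY hXY
      rw [h1]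
      congr 1
      · refine tsum_congr fun n => ?_
        rw [mul_div_assoc, hterm, mul_div_assoc]
      · congr 1
        refine tsum_congr fun n => ?_
        rw [map_mul, mul_div_assoc, mul_div_assoc]
        congr 2
        conv_lhs => rw [hcr n, Complex.conj_ofReal, ← hcr n]
        exact hterm n) χ hχ hord
    intro h0
    have hqp : 0 < (q : ℝ) ^ (-δ) := by
      have : (0 : ℝ) < q := by exact_mod_cast (by omega : 0 < q)
      positivity
    -- the modular symbols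
    obtain ⟨w, hw1, hw3⟩ := center hm f hP1 hP2 q hqN
    -- the central values in terms of the periods
    have hval : ∀ ψ : DirichletCharacter ℂ q, ψ.IsPrimitive →
        kap (m - 1) * (gaussSum ψ⁻¹ (stdAddChar (N := q)) * F q ψ (m : ℂ)) =
          ∑ u : (ZMod q)ˣ, ψ⁻¹ (u : ZMod q) * w u := by
      intro ψ hψ
      refine hw3 ψ⁻¹ (inv_primitive ψ hψ) (F q ψ (m : ℂ))
        ((ε : ℂ) * ψ (N : ZMod q) * gaussSum ψ (ZMod.stdAddChar (N := q)) ^ 2 / q) ?_
      intro X Y hX hY hXY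
      have h1 := (hF q ψ inferInstance (by omega) hqN hψ).2.2.1 X Y hX hY hXY
      rw [inv_inv]
      exact h1
    have h1 : ∑ u : (ZMod q)ˣ, χ⁻¹ (u : ZMod q) * w u = 0 := by
      rw [← hval χ hχ, h0, mul_zero, mul_zero]
    have h2 := hgal q χ⁻¹ a (by rw [orderOf_inv]; exact ha1) ha2 w hw1 h1
    rw [inv_pow, ← hval (χ ^ a) ha3] at h2
    have h3 : F q (χ ^ a) (m : ℂ) = 0 :=
      (mul_eq_zero.1 ((mul_eq_zero.1 h2).resolve_left (kap_ne _))).resolve_left
        (gauss_ne_zero _ (inv_primitive _ ha3))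
    rw [h3, norm_zero] at ha4
    linarith

end Pool.Agent.Y727.KS
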