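import Pool.Agent.Y727.KS.Ser

/-!
# The periods of a cusp form of weight `2 m`
-/

set_option autoImplicit false

open Complex Filter Topology Set Polynomial UpperHalfPlane MatrixGroups CongruenceSubgroup

namespace Pool.Agent.Y727.KS

/-! ## the action on polynomials -/

/-- the homogeneous action of an integral matrix on the polynomials of degree `< D` -/
noncomputable def sl (D : ℕ) (a b c d : ℤ) : ℚ[X] →ₗ[ℚ] ℚ[X] where
  toFun P := ∑ j ∈ Finset.range D, C (P.coeff j) *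
    ((C (a : ℚ) * X + C (b : ℚ)) ^ j * (C (c : ℚ) * X + C (d : ℚ)) ^ (D - 1 - j))
  map_add' P Q := by
    rw [← Finset.sum_add_distrib]
    refine Finset.sum_congr rfl fun j _ => ?_
    rw [Polynomial.coeff_add, C_add]
    ring
  map_smul' r P := by
    rw [Finset.smul_sum]
    refine Finset.sum_congr rfl fun j _ => ?_
    rw [Polynomial.coeff_smul, smul_eq_mul, C_mul, Polynomial.smul_eq_C_mul, RingHom.id_apply]
    ring

lemma sl_apply (D : ℕ) (a b c d : ℤ) (P : ℚ[X]) : sl D a b c d P =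
    ∑ j ∈ Finset.range D, C (P.coeff j) *
    ((C (a : ℚ) * X + C (b : ℚ)) ^ j * (C (c : ℚ) * X + C (d : ℚ)) ^ (D - 1 - j)) := rfl

lemma sl_natDegree {D : ℕ} (hD : 1 ≤ D) (a b c d : ℤ) (P : ℚ[X]) :
    (sl D a b c d P).natDegree < D := by
  have h1 : ∀ (x y : ℚ), (C x * X + C y : ℚ[X]).natDegree ≤ 1 := fun x y => natDegree_linear_le
  have : (sl D a b c d P).natDegree ≤ D - 1 := by
    rw [sl_apply]
    refine natDegree_sum_le_of_forall_le _ _ fun j hj => ?_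
    have hj' := Finset.mem_range.1 hj
    refine (natDegree_C_mul_le _ _).trans (natDegree_mul_le.trans ?_)
    have h2 := natDegree_pow_le_of_le j (h1 (a : ℚ) b)
    have h3 := natDegree_pow_le_of_le (D - 1 - j) (h1 (c : ℚ) d)
    omega
  omega

/-- extension of scalars -/
noncomputable def mp (P : ℚ[X]) : ℂ[X] := P.map (algebraMap ℚ ℂ)

lemma mp_natDegree (P : ℚ[X]) : (mp P).natDegree = P.natDegree :=
  natDegree_map_eq_of_injective (algebraMap ℚ ℂ).injective P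

lemma sl_eval {D : ℕ} {a b c d : ℤ} {P : ℚ[X]} (hP : P.natDegree < D) {z : ℂ}
    (hz : (c : ℂ) * z + d ≠ 0) : (mp (sl D a b c d P)).eval z =
      ((c : ℂ) * z + d) ^ (D - 1) * (mp P).eval (((a : ℂ) * z + b) / ((c : ℂ) * z + d)) := by
  rw [sl_apply]
  have h1 : mp P = ∑ j ∈ Finset.range D, C ((P.coeff j : ℚ) : ℂ) * X ^ j := by
    unfold mp
    conv_lhs => rw [P.as_sum_range' D hP]
    rw [Polynomial.map_sum]
    refine Finset.sum_congr rfl fun j _ => ?_
    rw [← C_mul_X_pow_eq_monomial, Polynomial.map_mul, Polynomial.map_C, Polynomial.map_pow,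
      Polynomial.map_X]
    rfl
  rw [h1]
  unfold mp
  rw [Polynomial.map_sum, Polynomial.eval_finsetSum, Polynomial.eval_finsetSum, Finset.mul_sum]
  refine Finset.sum_congr rfl fun j hj => ?_
  have hj' := Finset.mem_range.1 hj
  simp only [Polynomial.map_mul, Polynomial.map_C, Polynomial.map_pow, Polynomial.map_add,
    Polynomial.map_X, Polynomial.eval_mul, Polynomial.eval_C, Polynomial.eval_pow,
    Polynomial.eval_add, Polynomial.eval_X, eq_ratCast, Rat.cast_intCast]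
  have h2 : D - 1 = (D - 1 - j) + j := by omega
  have h3 : ((c : ℂ) * z + d) ^ (D - 1) = ((c : ℂ) * z + d) ^ (D - 1 - j) * ((c : ℂ) * z + d) ^ j := by
    rw [← pow_add, ← h2]
  have h5 : (((a : ℂ) * z + b) ^ j / ((c : ℂ) * z + d) ^ j) * ((c : ℂ) * z + d) ^ j =
      ((a : ℂ) * z + b) ^ j := div_mul_cancel₀ _ (pow_ne_zero _ hz)
  rw [h3, div_pow]
  linear_combination (-(((P.coeff j : ℚ) : ℂ) * ((c : ℂ) * z + d) ^ (D - 1 - j))) * h5

lemma upper_infinite : {z : ℂ | 0 < z.im}.Infinite := by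
  have h : Function.Injective (fun n : ℕ => ((n : ℂ) + Complex.I)) := by
    intro x y hxy
    have h1 : ((x : ℂ)) = (y : ℂ) := add_right_cancel hxy
    exact_mod_cast h1
  refine (Set.infinite_range_of_injective h).mono ?_
  rintro _ ⟨n, rfl⟩
  simp

lemma poly_ext {P Q : ℂ[X]} (h : ∀ z : ℂ, 0 < z.im → P.eval z = Q.eval z) : P = Q :=
  Polynomial.eq_of_infinite_eval_eq P Q (upper_infinite.mono fun z hz => h z hz)

/-- integral matrices of positive determinant act on the upper half plane -/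
lemma den_ne {a b c d : ℤ} (hdet : 0 < a * d - b * c) {z : ℂ} (hz : 0 < z.im) :
    (c : ℂ) * z + d ≠ 0 := by
  intro h
  have h1 := congrArg Complex.im h
  simp at h1
  rcases h1 with h1 | h1
  · subst h1
    simp at h
    subst h
    simp at hdet
  · rw [h1] at hz
    exact lt_irrefl _ hz

lemma act_im {a b c d : ℤ} (hdet : 0 < a * d - b * c) {z : ℂ} (hz : 0 < z.im) :
    0 < (((a : ℂ) * z + b) / ((c : ℂ) * z + d)).im := by
  have hne := den_ne hdet hz
  have h1 : (((a : ℂ) * z + b) / ((c : ℂ) * z + d)).im =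
      ((a * d - b * c : ℤ) : ℝ) * z.im / Complex.normSq ((c : ℂ) * z + d) := by
    rw [Complex.div_im]
    simp only [Complex.add_im, Complex.mul_im, Complex.intCast_re, Complex.intCast_im, zero_mul,
      add_zero, Complex.add_re, Complex.mul_re, sub_zero]
    push_cast
    ring
  rw [h1]
  have h2 : 0 < Complex.normSq ((c : ℂ) * z + d) := Complex.normSq_pos.2 hne
  have h3 : (0 : ℝ) < ((a * d - b * c : ℤ) : ℝ) := by exact_mod_cast hdet
  positivity

lemma sl_comp {D : ℕ} (hD : 1 ≤ D) {a b c d a' b' c' d' : ℤ} (h : 0 < a * d - b * c)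
    (h' : 0 < a' * d' - b' * c') {P : ℚ[X]} (hP : P.natDegree < D) :
    mp (sl D a' b' c' d' (sl D a b c d P)) =
      mp (sl D (a * a' + b * c') (a * b' + b * d') (c * a' + d * c') (c * b' + d * d') P) := by
  refine poly_ext fun z hz => ?_
  have h1 := den_ne h' hz
  have h2 := act_im h' hz
  have h3 := den_ne h h2
  have h4 : ((c * a' + d * c' : ℤ) : ℂ) * z + ((c * b' + d * d' : ℤ) : ℂ) =
      ((c : ℂ) * (((a' : ℂ) * z + b') / ((c' : ℂ) * z + d')) + d) * ((c' : ℂ) * z + d') := by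
    push_cast
    field_simp
    ring
  have h5 : ((c * a' + d * c' : ℤ) : ℂ) * z + ((c * b' + d * d' : ℤ) : ℂ) ≠ 0 := by
    rw [h4]
    exact mul_ne_zero h3 h1
  rw [sl_eval (sl_natDegree hD _ _ _ _ _) h1, sl_eval hP h3, sl_eval hP h5, ← mul_assoc, ← mul_pow]
  congr 1
  · rw [h4, mul_comm]
  · have h6 : ((a * a' + b * c' : ℤ) : ℂ) * z + ((a * b' + b * d' : ℤ) : ℂ) =
        ((a : ℂ) * (((a' : ℂ) * z + b') / ((c' : ℂ) * z + d')) + b) * ((c' : ℂ) * z + d') := by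
      push_cast
      field_simp
      ring
    congr 1
    rw [div_eq_div_iff h3 h5, h4, h6]
    ring

/-! ## the constants -/

/-- `P ↦ Ep P z` on rational polynomials -/
noncomputable def EQ (a : ℕ → ℂ) (D : ℕ) (z : ℂ) : ℚ[X] →ₗ[ℚ] ℂ where
  toFun P := Ep a D (mp P) z
  map_add' P Q := by
    unfold mp
    rw [Polynomial.map_add, Ep_add]
  map_smul' r P := by
    unfold mp
    rw [Polynomial.smul_eq_C_mul, Polynomial.map_mul, Polynomial.map_C, Ep_smul, RingHom.id_apply,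
      Algebra.smul_def]

/-- the matrix changes the primitives by constants in `V` -/
def Pv (a : ℕ → ℂ) (D : ℕ) (V : Submodule ℚ ℂ) (A B C' D' : ℤ) (c : ℂ) : Prop :=
  ∀ P : ℚ[X], P.natDegree < D → ∃ v ∈ V, ∀ z : ℂ, 0 < z.im →
    EQ a D (((A : ℂ) * z + B) / ((C' : ℂ) * z + D')) P = c * EQ a D z (sl D A B C' D' P) + v

lemma Pv_of {a : ℕ → ℂ} {D : ℕ} {V : Submodule ℚ ℂ} {A B C' D' : ℤ} {c : ℂ}
    (h : ∀ j < D, ∃ v ∈ V, ∀ z : ℂ, 0 < z.im →
      EQ a D (((A : ℂ) * z + B) / ((C' : ℂ) * z + D')) (X ^ j) =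
        c * EQ a D z (sl D A B C' D' (X ^ j)) + v) : Pv a D V A B C' D' c := by
  intro P hP
  choose! v hv hv' using h
  refine ⟨∑ j ∈ Finset.range D, P.coeff j • v j,
    Submodule.sum_mem _ fun j hj => V.smul_mem _ (hv j (Finset.mem_range.1 hj)), fun z hz => ?_⟩
  have hPs : P = ∑ j ∈ Finset.range D, P.coeff j • (X ^ j : ℚ[X]) := by
    conv_lhs => rw [P.as_sum_range' D hP]
    refine Finset.sum_congr rfl fun j _ => ?_
    rw [← C_mul_X_pow_eq_monomial, Polynomial.smul_eq_C_mul]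
  have h1 : ∀ (l : ℚ[X] →ₗ[ℚ] ℂ), l P = ∑ j ∈ Finset.range D, P.coeff j • l (X ^ j) := by
    intro l
    conv_lhs => rw [hPs]
    rw [map_sum]
    refine Finset.sum_congr rfl fun j _ => ?_
    rw [map_smul]
  have h2 := h1 ((EQ a D z).comp (sl D A B C' D'))
  simp only [LinearMap.comp_apply] at h2
  rw [h1, h2, Finset.mul_sum, ← Finset.sum_add_distrib]
  refine Finset.sum_congr rfl fun j hj => ?_
  rw [hv' j (Finset.mem_range.1 hj) z hz, smul_add, mul_smul_comm]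

/-- existence of the constants -/
lemma trans {a : ℕ → ℂ} {C κ : ℝ} (h : Gr a C κ) {m : ℕ} (hm : 1 ≤ m) {A B C' D' : ℤ}
    (hdet : 0 < A * D' - B * C') {c : ℂ}
    (hf : ∀ z : ℂ, 0 < z.im → Fs a 0 (((A : ℂ) * z + B) / ((C' : ℂ) * z + D')) *
      ((A * D' - B * C' : ℤ) : ℂ) = c * ((C' : ℂ) * z + D') ^ (2 * m) * Fs a 0 z)
    (P : ℚ[X]) (hP : P.natDegree < 2 * m - 1) : ∃ v : ℂ, ∀ z : ℂ, 0 < z.im →
    EQ a (2 * m - 1) (((A : ℂ) * z + B) / ((C' : ℂ) * z + D')) P =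
      c * EQ a (2 * m - 1) z (sl (2 * m - 1) A B C' D' P) + v := by
  have hopen : IsOpen {z : ℂ | 0 < z.im} := isOpen_lt continuous_const Complex.continuous_im
  have hder : ∀ z : ℂ, 0 < z.im → HasDerivAt
      (fun z : ℂ => EQ a (2 * m - 1) (((A : ℂ) * z + B) / ((C' : ℂ) * z + D')) P -
        c * EQ a (2 * m - 1) z (sl (2 * m - 1) A B C' D' P)) 0 z := by
    intro z hz
    have hne := den_ne hdet hz
    have him := act_im hdet hz
    have h1 : HasDerivAt (fun z : ℂ => ((A : ℂ) * z + B) / ((C' : ℂ) * z + D'))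
        (((A * D' - B * C' : ℤ) : ℂ) / ((C' : ℂ) * z + D') ^ 2) z := by
      have h2 : HasDerivAt (fun z : ℂ => (A : ℂ) * z + B) (A : ℂ) z := by
        simpa using ((hasDerivAt_id z).const_mul (A : ℂ)).add_const (B : ℂ)
      have h3 : HasDerivAt (fun z : ℂ => (C' : ℂ) * z + D') (C' : ℂ) z := by
        simpa using ((hasDerivAt_id z).const_mul (C' : ℂ)).add_const (D' : ℂ)
      refine (h2.div h3 hne).congr_deriv ?_
      congr 1
      push_cast
      ring
    have h4 := (Ep_deriv h (P := mp P) (D := 2 * m - 1) (by rw [mp_natDegree]; exact hP) him).comp z h1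
    have h5 := (Ep_deriv h (P := mp (sl (2 * m - 1) A B C' D' P)) (D := 2 * m - 1)
      (by rw [mp_natDegree]; exact sl_natDegree (by omega) _ _ _ _ _) hz).const_mul c
    refine (h4.sub h5).congr_deriv ?_
    rw [sl_eval hP hne]
    have h6 := hf z hz
    have h7 : ((C' : ℂ) * z + D') ^ (2 * m) =
        ((C' : ℂ) * z + D') ^ (2 * m - 1 - 1) * ((C' : ℂ) * z + D') ^ 2 := by
      rw [← pow_add]
      congr 1
      omega
    rw [h7] at h6
    have h8 : Fs a 0 (((A : ℂ) * z + B) / ((C' : ℂ) * z + D')) *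
        (((A * D' - B * C' : ℤ) : ℂ) / ((C' : ℂ) * z + D') ^ 2) =
        c * ((C' : ℂ) * z + D') ^ (2 * m - 1 - 1) * Fs a 0 z := by
      rw [← mul_div_assoc, h6]
      field_simp
    rw [mul_assoc, h8]
    ring
  refine ⟨EQ a (2 * m - 1) (((A : ℂ) * Complex.I + B) / ((C' : ℂ) * Complex.I + D')) P -
        c * EQ a (2 * m - 1) Complex.I (sl (2 * m - 1) A B C' D' P), fun z hz => ?_⟩
  have h8 := hopen.is_const_of_deriv_eq_zero (convex_halfSpace_im_gt 0).isPreconnected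
    (fun w hw => (hder w hw).differentiableAt.differentiableWithinAt) (fun w hw => (hder w hw).deriv)
    hz (show (0 : ℝ) < Complex.I.im by simp)
  rw [← h8]
  ring

lemma Pv_mul {a : ℕ → ℂ} {D : ℕ} (hD : 1 ≤ D) {V : Submodule ℚ ℂ} {A B C' D' A1 B1 C1 D1 : ℤ}
    (hd : 0 < A * D' - B * C') (hd1 : 0 < A1 * D1 - B1 * C1)
    (h : Pv a D V A B C' D' 1) (h1 : Pv a D V A1 B1 C1 D1 1) :
    Pv a D V (A * A1 + B * C1) (A * B1 + B * D1) (C' * A1 + D' * C1) (C' * B1 + D' * D1) 1 := by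
  intro P hP
  obtain ⟨v, hv, hv'⟩ := h P hP
  obtain ⟨v1, hv1, hv1'⟩ := h1 (sl D A B C' D' P) (sl_natDegree hD _ _ _ _ _)
  refine ⟨v1 + v, V.add_mem hv1 hv, fun z hz => ?_⟩
  have e1 := den_ne hd1 hz
  have e2 := act_im hd1 hz
  have e3 := den_ne hd e2
  have e4 : (((A * A1 + B * C1 : ℤ) : ℂ) * z + ((A * B1 + B * D1 : ℤ) : ℂ)) /
      (((C' * A1 + D' * C1 : ℤ) : ℂ) * z + ((C' * B1 + D' * D1 : ℤ) : ℂ)) =
      ((A : ℂ) * (((A1 : ℂ) * z + B1) / ((C1 : ℂ) * z + D1)) + B) /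
        ((C' : ℂ) * (((A1 : ℂ) * z + B1) / ((C1 : ℂ) * z + D1)) + D') := by
    have e5 : ((C' * A1 + D' * C1 : ℤ) : ℂ) * z + ((C' * B1 + D' * D1 : ℤ) : ℂ) =
        ((C' : ℂ) * (((A1 : ℂ) * z + B1) / ((C1 : ℂ) * z + D1)) + D') * ((C1 : ℂ) * z + D1) := by
      push_cast
      field_simp
      ring
    have e6 : ((A * A1 + B * C1 : ℤ) : ℂ) * z + ((A * B1 + B * D1 : ℤ) : ℂ) =
        ((A : ℂ) * (((A1 : ℂ) * z + B1) / ((C1 : ℂ) * z + D1)) + B) * ((C1 : ℂ) * z + D1) := by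
      push_cast
      field_simp
      ring
    rw [e5, e6, div_eq_div_iff (mul_ne_zero e3 e1) e3]
    ring
  have e6 : EQ a D z (sl D A1 B1 C1 D1 (sl D A B C' D' P)) =
      EQ a D z (sl D (A * A1 + B * C1) (A * B1 + B * D1) (C' * A1 + D' * C1)
        (C' * B1 + D' * D1) P) := by
    show Ep a D (mp _) z = Ep a D (mp _) z
    rw [sl_comp hD hd hd1 hP]
  rw [e4, hv' _ e2, one_mul, hv1' z hz, one_mul, e6]
  ring

lemma mp_sl_one {D : ℕ} {P : ℚ[X]} (hP : P.natDegree < D) : mp (sl D 1 0 0 1 P) = mp P := by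
  refine poly_ext fun z hz => ?_
  rw [sl_eval hP (by simp)]
  simp

lemma Pv_one {a : ℕ → ℂ} {D : ℕ} {V : Submodule ℚ ℂ} : Pv a D V 1 0 0 1 1 := by
  intro P hP
  refine ⟨0, V.zero_mem, fun z hz => ?_⟩
  have e : EQ a D z (sl D 1 0 0 1 P) = EQ a D z P := by
    show Ep a D (mp _) z = Ep a D (mp _) z
    rw [mp_sl_one hP]
  rw [e]
  simp

lemma Pv_inv {a : ℕ → ℂ} {D : ℕ} (hD : 1 ≤ D) {V : Submodule ℚ ℂ} {A B C' D' : ℤ}
    (hd : A * D' - B * C' = 1) (h : Pv a D V A B C' D' 1) : Pv a D V D' (-B) (-C') A 1 := by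
  have hd0 : 0 < A * D' - B * C' := by omega
  have hd1 : 0 < D' * A - (-B) * (-C') := by
    have : D' * A - (-B) * (-C') = 1 := by rw [← hd]; ring
    omega
  intro P hP
  obtain ⟨v, hv, hv'⟩ := h (sl D D' (-B) (-C') A P) (sl_natDegree hD _ _ _ _ _)
  refine ⟨-v, V.neg_mem hv, fun z hz => ?_⟩
  have e1 := den_ne hd1 hz
  have e2 := act_im hd1 hz
  have e3 := den_ne hd0 e2
  have hdc : (A : ℂ) * D' - B * C' = 1 := by exact_mod_cast hd
  have e5 : ((C' : ℂ) * ((((D' : ℤ) : ℂ) * z + ((-B : ℤ) : ℂ)) / (((-C' : ℤ) : ℂ) * z + A)) + D') *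
      (((-C' : ℤ) : ℂ) * z + A) = 1 := by
    rw [add_mul, mul_assoc, div_mul_cancel₀ _ e1, ← hdc]
    push_cast
    ring
  have e4 : ((A : ℂ) * ((((D' : ℤ) : ℂ) * z + ((-B : ℤ) : ℂ)) / (((-C' : ℤ) : ℂ) * z + A)) + B) /
        ((C' : ℂ) * ((((D' : ℤ) : ℂ) * z + ((-B : ℤ) : ℂ)) / (((-C' : ℤ) : ℂ) * z + A)) + D') = z := by
    rw [div_eq_iff e3]
    apply mul_right_cancel₀ e1
    rw [mul_assoc z, e5, add_mul, mul_assoc, div_mul_cancel₀ _ e1]
    push_cast
    linear_combination z * hdc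
  have e6 : EQ a D ((((D' : ℤ) : ℂ) * z + ((-B : ℤ) : ℂ)) / (((-C' : ℤ) : ℂ) * z + A))
      (sl D A B C' D' (sl D D' (-B) (-C') A P)) =
      EQ a D ((((D' : ℤ) : ℂ) * z + ((-B : ℤ) : ℂ)) / (((-C' : ℤ) : ℂ) * z + A)) P := by
    show Ep a D (mp _) _ = Ep a D (mp _) _
    rw [sl_comp hD hd1 hd0 hP]
    have i1 : D' * A + -B * C' = 1 := by rw [← hd]; ring
    have i2 : D' * B + -B * D' = 0 := by ring
    have i3 : -C' * A + A * C' = 0 := by ring
    have i4 : -C' * B + A * D' = 1 := by rw [← hd]; ring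
    rw [i1, i2, i3, i4, mp_sl_one hP]
  have h7 := hv' _ e2
  rw [e4, one_mul, e6] at h7
  rw [h7]
  ring

end Pool.Agent.Y727.KS
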