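import Pool.Agent.W108.TW.Mellin

/-!
# The series `∑ a(n) / n^i e^(2πinz)` and the iterated primitives of `P(z) f(z)`
-/

set_option autoImplicit false

open Complex Filter Topology Set Polynomial

namespace Pool.Agent.Y727.KS

open Pool.Agent.W108.TW

/-- the series -/
noncomputable def Fs (a : ℕ → ℂ) (i : ℕ) (z : ℂ) : ℂ :=
  ∑' n : ℕ, a n / (n : ℂ) ^ i * Complex.exp (2 * Real.pi * Complex.I * n * z)

/-- the growth condition on the coefficients -/
structure Gr (a : ℕ → ℂ) (C κ : ℝ) : Prop where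
  zero : a 0 = 0
  bd : ∀ n : ℕ, 1 ≤ n → ‖a n‖ ≤ C * (n : ℝ) ^ κ

lemma exp_norm (n : ℕ) (z : ℂ) : ‖Complex.exp (2 * Real.pi * Complex.I * n * z)‖ =
    Real.exp (-(2 * Real.pi * z.im * n)) := by
  rw [Complex.norm_exp]
  congr 1
  simp
  ring

lemma Gr.div {a : ℕ → ℂ} {C κ : ℝ} (h : Gr a C κ) (i : ℕ) : Gr (fun n => a n / (n : ℂ) ^ i) C κ := by
  refine ⟨by simp [h.zero], fun n hn => ?_⟩
  refine le_trans ?_ (h.bd n hn)
  rw [norm_div, norm_pow, Complex.norm_natCast]
  exact div_le_self (norm_nonneg _) (one_le_pow₀ (by exact_mod_cast hn))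

lemma term_le {a : ℕ → ℂ} {C κ : ℝ} (h : Gr a C κ) {δ : ℝ} {w : ℂ} (hw : δ ≤ w.im) (n : ℕ) :
    ‖a n * Complex.exp (2 * Real.pi * Complex.I * n * w)‖ ≤
      |C| * ((n : ℝ) ^ κ * Real.exp (-((2 * Real.pi * δ) * n))) := by
  have hpi := Real.pi_pos
  rcases Nat.eq_zero_or_pos n with rfl | hn
  · rw [h.zero, zero_mul, norm_zero]; positivity
  · rw [norm_mul, exp_norm]
    have h1 : Real.exp (-(2 * Real.pi * w.im * n)) ≤ Real.exp (-((2 * Real.pi * δ) * n)) := by
      apply Real.exp_le_exp.mpr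
      have : 2 * Real.pi * δ * n ≤ 2 * Real.pi * w.im * n := by gcongr
      linarith
    have h2 : ‖a n‖ ≤ |C| * (n : ℝ) ^ κ :=
      (h.bd n hn).trans (mul_le_mul_of_nonneg_right (le_abs_self C) (by positivity))
    calc ‖a n‖ * Real.exp (-(2 * Real.pi * w.im * n)) ≤
          (|C| * (n : ℝ) ^ κ) * Real.exp (-((2 * Real.pi * δ) * n)) :=
          mul_le_mul h2 h1 (Real.exp_pos _).le (by positivity)
      _ = _ := by ring

lemma Fs_summable {a : ℕ → ℂ} {C κ : ℝ} (h : Gr a C κ) (i : ℕ) {z : ℂ} (hz : 0 < z.im) :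
    Summable (fun n : ℕ => a n / (n : ℂ) ^ i * Complex.exp (2 * Real.pi * Complex.I * n * z)) := by
  have hpi := Real.pi_pos
  exact Summable.of_norm_bounded
    ((summable_maj (2 * Real.pi * z.im) (by positivity) κ).mul_left |C|)
    (fun n => term_le (h.div i) le_rfl n)

lemma Fs_deriv {a : ℕ → ℂ} {C κ : ℝ} (h : Gr a C κ) (i : ℕ) {z : ℂ} (hz : 0 < z.im) :
    HasDerivAt (Fs a (i + 1)) (2 * Real.pi * Complex.I * Fs a i z) z := by
  set δ : ℝ := z.im / 2 with hδ
  have hδ0 : 0 < δ := by positivity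
  have hpi := Real.pi_pos
  set t : Set ℂ := {w : ℂ | δ < w.im} with ht
  have htopen : IsOpen t := isOpen_lt continuous_const Complex.continuous_im
  have htpre : IsPreconnected t := (convex_halfSpace_im_gt δ).isPreconnected
  have hzt : z ∈ t := by
    show δ < z.im
    rw [hδ]; linarith
  let u : ℕ → ℝ := fun n => 2 * Real.pi * (|C| * ((n : ℝ) ^ κ * Real.exp (-((2 * Real.pi * δ) * n))))
  have hu : Summable u :=
    ((summable_maj (2 * Real.pi * δ) (by positivity) κ).mul_left _).mul_left _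
  have hg : ∀ (n : ℕ) (w : ℂ), w ∈ t → HasDerivAt
      (fun w : ℂ => a n / (n : ℂ) ^ (i + 1) * Complex.exp (2 * Real.pi * Complex.I * n * w))
      (2 * Real.pi * Complex.I * (a n / (n : ℂ) ^ i *
        Complex.exp (2 * Real.pi * Complex.I * n * w))) w := by
    intro n w _
    have h1 : HasDerivAt (fun w : ℂ => Complex.exp (2 * Real.pi * Complex.I * n * w))
        (Complex.exp (2 * Real.pi * Complex.I * n * w) * (2 * Real.pi * Complex.I * n)) w := by
      have h2 : HasDerivAt (fun w : ℂ => 2 * Real.pi * Complex.I * n * w)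
          (2 * Real.pi * Complex.I * n) w := by
        simpa using (hasDerivAt_id w).const_mul (2 * Real.pi * Complex.I * n : ℂ)
      exact h2.cexp
    have h3 := h1.const_mul (a n / (n : ℂ) ^ (i + 1))
    refine h3.congr_deriv ?_
    rcases Nat.eq_zero_or_pos n with rfl | hn
    · rw [h.zero]; simp
    · have : (n : ℂ) ≠ 0 := by exact_mod_cast hn.ne'
      field_simp
      ring
  have hmain := hasDerivAt_tsum_of_isPreconnected hu htopen htpre hg (fun n w hw => by
    have h1 := term_le (h.div i) (le_of_lt (show δ < w.im from hw)) n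
    show _ ≤ 2 * Real.pi * (|C| * ((n : ℝ) ^ κ * Real.exp (-((2 * Real.pi * δ) * n))))
    rw [norm_mul]
    have h2 : ‖(2 * Real.pi * Complex.I : ℂ)‖ = 2 * Real.pi := by
      rw [norm_mul, norm_mul, Complex.norm_I, mul_one, Complex.norm_real, Real.norm_eq_abs,
        abs_of_pos hpi]
      norm_num
    rw [h2]
    exact mul_le_mul_of_nonneg_left h1 (by positivity)) hzt (Fs_summable h (i + 1) hz) hzt
  refine hmain.congr_deriv ?_
  rw [tsum_mul_left]
  rfl

/-- decay at `i∞` faster than any power, along every vertical line -/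
def Dec (g : ℂ → ℂ) : Prop := ∀ (b : ℕ) (x : ℝ),
  Tendsto (fun T : ℝ => (T : ℂ) ^ b * g ((x : ℂ) + (T : ℂ) * Complex.I)) atTop (𝓝 0)

lemma Dec.add {g g' : ℂ → ℂ} (h : Dec g) (h' : Dec g') : Dec (fun z => g z + g' z) := by
  intro b x
  have := (h b x).add (h' b x)
  rw [add_zero] at this
  exact this.congr fun T => by ring

lemma Dec.const_mul {g : ℂ → ℂ} (h : Dec g) (c : ℂ) : Dec (fun z => c * g z) := by
  intro b x
  have := (h b x).const_mul c
  rw [mul_zero] at this
  exact this.congr fun T => by ring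

lemma Dec.z_mul {g : ℂ → ℂ} (h : Dec g) : Dec (fun z => z * g z) := by
  intro b x
  have := ((h b x).const_mul (x : ℂ)).add ((h (b + 1) x).const_mul Complex.I)
  rw [mul_zero, mul_zero, add_zero] at this
  exact this.congr fun T => by ring

lemma Dec.pow_mul {g : ℂ → ℂ} (h : Dec g) (j : ℕ) : Dec (fun z => z ^ j * g z) := by
  induction j with
  | zero => simpa using h
  | succ j ih =>
      have := ih.z_mul
      have e : (fun z : ℂ => z * (z ^ j * g z)) = fun z => z ^ (j + 1) * g z := by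
        funext z; ring
      rwa [e] at this

lemma Dec.sum {ι : Type} (s : Finset ι) {g : ι → ℂ → ℂ} (h : ∀ i ∈ s, Dec (g i)) :
    Dec (fun z => ∑ i ∈ s, g i z) := by
  classical
  induction s using Finset.induction_on with
  | empty =>
      intro b x
      simp
  | insert i s hi ih =>
      have h1 := (h i (Finset.mem_insert_self i s)).add
        (ih fun j hj => h j (Finset.mem_insert_of_mem hj))
      have e : (fun z : ℂ => g i z + ∑ j ∈ s, g j z) = fun z => ∑ j ∈ insert i s, g j z := by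
        funext z
        rw [Finset.sum_insert hi]
      rwa [e] at h1

lemma Dec.poly_mul {g : ℂ → ℂ} (h : Dec g) (P : ℂ[X]) : Dec (fun z => P.eval z * g z) := by
  have e : (fun z : ℂ => P.eval z * g z) =
      fun z => ∑ j ∈ Finset.range (P.natDegree + 1), P.coeff j * (z ^ j * g z) := by
    funext z
    rw [Polynomial.eval_eq_sum_range, Finset.sum_mul]
    refine Finset.sum_congr rfl fun j _ => by ring
  rw [e]
  exact Dec.sum _ fun j _ => (h.pow_mul j).const_mul _

lemma Fs_dec {a : ℕ → ℂ} {C κ : ℝ} (h : Gr a C κ) (i : ℕ) : Dec (Fs a i) := by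
  intro b x
  have h1 : Gr (fun n => a n / (n : ℂ) ^ i * Complex.exp (2 * Real.pi * Complex.I * n * x)) C κ := by
    refine ⟨by rw [(h.div i).zero, zero_mul], fun n hn => ?_⟩
    rw [norm_mul, exp_norm, Complex.ofReal_im]
    simpa using (h.div i).bd n hn
  have h2 := Th_isBigO h1.zero h1.bd (c := 2 * Real.pi) (by positivity) (-((b : ℝ) + 1))
  simp only [sub_zero] at h2
  have h3 : (fun T : ℝ => (T : ℂ) ^ b * Fs a i ((x : ℂ) + (T : ℂ) * Complex.I)) =ᶠ[atTop]
      fun T : ℝ => (T : ℂ) ^ b * Th (fun n => a n / (n : ℂ) ^ i *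
        Complex.exp (2 * Real.pi * Complex.I * n * x)) (2 * Real.pi) T := by
    refine EventuallyEq.of_eq (funext fun T => ?_)
    congr 1
    unfold Fs Th
    refine tsum_congr fun n => ?_
    show _ = a n / (n : ℂ) ^ i * Complex.exp (2 * Real.pi * Complex.I * n * x) *
      (Real.exp (-(2 * Real.pi * n) * T) : ℂ)
    rw [mul_assoc (a n / (n : ℂ) ^ i)]
    congr 1
    rw [Complex.ofReal_exp, ← Complex.exp_add]
    congr 1
    push_cast
    linear_combination (2 * Real.pi * n * T : ℂ) * Complex.I_sq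
  refine Tendsto.congr' h3.symm ?_
  have h4 : (fun T : ℝ => (T : ℂ) ^ b * Th (fun n => a n / (n : ℂ) ^ i *
        Complex.exp (2 * Real.pi * Complex.I * n * x)) (2 * Real.pi) T) =O[atTop]
      fun T : ℝ => T ^ (-(1 : ℝ)) := by
    have h5 : (fun T : ℝ => (T : ℂ) ^ b) =O[atTop] fun T : ℝ => T ^ (b : ℝ) := by
      refine Asymptotics.IsBigO.of_bound 1 ?_
      filter_upwards [eventually_gt_atTop (0 : ℝ)] with T hT
      rw [norm_pow, Complex.norm_real, Real.rpow_natCast, norm_pow, one_mul]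
    refine (h5.mul h2).congr' EventuallyEq.rfl ?_
    filter_upwards [eventually_gt_atTop (0 : ℝ)] with T hT
    rw [← Real.rpow_add hT]
    congr 1
    ring
  exact h4.trans_tendsto (tendsto_rpow_neg_atTop one_pos)

/-! ## iterated primitives -/

/-- the primitive of `P(z) ∑ a(n) e^(2πinz)` that vanishes at `i∞`, for `deg P < D` -/
noncomputable def Ep (a : ℕ → ℂ) (D : ℕ) (P : ℂ[X]) (z : ℂ) : ℂ :=
  ∑ i ∈ Finset.range D, (-1) ^ i * (derivative^[i] P).eval z * Fs a (i + 1) z /
    (2 * Real.pi * Complex.I) ^ (i + 1)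

lemma two_pi_I_ne : (2 * Real.pi * Complex.I : ℂ) ≠ 0 := by
  simp [Real.pi_ne_zero]

lemma Ep_add (a : ℕ → ℂ) (D : ℕ) (P Q : ℂ[X]) (z : ℂ) :
    Ep a D (P + Q) z = Ep a D P z + Ep a D Q z := by
  unfold Ep
  rw [← Finset.sum_add_distrib]
  refine Finset.sum_congr rfl fun i _ => ?_
  rw [iterate_map_add, Polynomial.eval_add]
  ring

lemma Ep_smul (a : ℕ → ℂ) (D : ℕ) (c : ℂ) (P : ℂ[X]) (z : ℂ) :
    Ep a D (C c * P) z = c * Ep a D P z := by
  unfold Ep
  rw [Finset.mul_sum]
  refine Finset.sum_congr rfl fun i _ => ?_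
  rw [Polynomial.iterate_derivative_C_mul, Polynomial.eval_mul, Polynomial.eval_C]
  ring

/-- `Ep` as a linear map in `P` -/
noncomputable def El (a : ℕ → ℂ) (D : ℕ) (z : ℂ) : ℂ[X] →ₗ[ℂ] ℂ where
  toFun P := Ep a D P z
  map_add' P Q := Ep_add a D P Q z
  map_smul' c P := by
    rw [Polynomial.smul_eq_C_mul, Ep_smul]
    rfl

lemma Ep_dec {a : ℕ → ℂ} {C κ : ℝ} (h : Gr a C κ) (D : ℕ) (P : ℂ[X]) : Dec (Ep a D P) := by
  refine Dec.sum _ fun i _ => ?_
  have h1 := ((Fs_dec h (i + 1)).poly_mul (derivative^[i] P)).const_mul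
    ((-1) ^ i / (2 * Real.pi * Complex.I) ^ (i + 1))
  have e : (fun z : ℂ => ((-1) ^ i / (2 * Real.pi * Complex.I) ^ (i + 1)) *
      ((derivative^[i] P).eval z * Fs a (i + 1) z)) = fun z => (-1) ^ i *
        (derivative^[i] P).eval z * Fs a (i + 1) z / (2 * Real.pi * Complex.I) ^ (i + 1) := by
    funext z; ring
  rwa [e] at h1

lemma Ep_deriv {a : ℕ → ℂ} {C κ : ℝ} (h : Gr a C κ) {D : ℕ} {P : ℂ[X]} (hP : P.natDegree < D)
    {z : ℂ} (hz : 0 < z.im) : HasDerivAt (Ep a D P) (P.eval z * Fs a 0 z) z := by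
  have h1 : ∀ i : ℕ, HasDerivAt (fun z => (-1) ^ i * (derivative^[i] P).eval z * Fs a (i + 1) z /
      (2 * Real.pi * Complex.I) ^ (i + 1))
      ((-1) ^ i * (derivative^[i] P).eval z * Fs a i z / (2 * Real.pi * Complex.I) ^ i -
        (-1) ^ (i + 1) * (derivative^[i + 1] P).eval z * Fs a (i + 1) z /
          (2 * Real.pi * Complex.I) ^ (i + 1)) z := by
    intro i
    have h2 := (((derivative^[i] P).hasDerivAt z).const_mul ((-1 : ℂ) ^ i)).mul (Fs_deriv h i hz)
    have h3 := h2.div_const ((2 * Real.pi * Complex.I) ^ (i + 1))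
    refine h3.congr_deriv ?_
    have hne := two_pi_I_ne
    rw [Function.iterate_succ_apply']
    field_simp
    ring
  have h2 := HasDerivAt.fun_sum (u := Finset.range D) (fun i _ => h1 i)
  refine h2.congr_deriv ?_
  have h3 := Finset.sum_range_sub' (fun i => (-1) ^ i * (derivative^[i] P).eval z * Fs a i z /
    (2 * Real.pi * Complex.I) ^ i) D
  rw [h3]
  have h4 : derivative^[D] P = 0 := Polynomial.iterate_derivative_eq_zero hP
  rw [h4]
  simp

/-- the value at the double point -/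
lemma Ep_self (a : ℕ → ℂ) {D r : ℕ} (hr : r < D) (z : ℂ) :
    Ep a D ((X - C z) ^ r) z = (-1) ^ r * (r.factorial : ℂ) * Fs a (r + 1) z /
      (2 * Real.pi * Complex.I) ^ (r + 1) := by
  unfold Ep
  rw [Finset.sum_eq_single_of_mem r (Finset.mem_range.2 hr)]
  · rw [Polynomial.iterate_derivative_X_sub_pow]
    simp [Nat.descFactorial_self]
  · intro i _ hi
    rw [Polynomial.iterate_derivative_X_sub_pow]
    rcases Nat.lt_or_ge r i with h | h
    · rw [Nat.descFactorial_eq_zero_iff_lt.2 h]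
      simp
    · have h2 : r - i ≠ 0 := by omega
      simp [h2]

end Pool.Agent.Y727.KS
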